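import Pool.Agent.helper62.MS.SpecG
import Pool.Agent.helper62.LL.SpecG

/-!
# MP_07c750, project MS: block E (the part of the measure over a set of dimension `≤ 1` is covered by few boxes), rows `ms:X`

Rules as in `SpecA`. All rows of EN (`EN.HSB_stmt`, `EN.HLG_stmt`, `EN.PAR_stmt`, `EN.XLF_stmt`, ..) and of LL (`LL.LOC_stmt`, `LL.KAT_stmt`, `LL.ENG_stmt`, ..) are proved; use the ones of LL as hypotheses `(h : LL.LOC_stmt)` etc.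
(`Pool.Agent.helper62.EN.All` has `EN.A_HSB`, ..).
-/

open scoped MatrixGroups Topology UpperHalfPlane
open UpperHalfPlane MeasureTheory Filter Set

namespace Pool.Agent.MS

open Pool.Agent.EN (XG MG mkX mkM fl pr Hn)
open Pool.Agent.LL (Sys cyl)

/-- **Row FEK** (short-medium; EN.A_HSB, EN.A_HLG). `Hn (a + b) ≤ Hn a + Hn b` (HSB, `μ.map (T^[a]) = μ`): `Subadditive.tendsto_lim`, bounded below by `0` (HLG); the limit is the infimum over `n ≥ 1`. -/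
def FEK_stmt : Prop := ∀ (X : Type) [MeasurableSpace X] (μ : Measure X) (T : X → X) (p : ℕ) (P : X → Fin p), IsProbabilityMeasure μ → MeasurePreserving T μ μ → Measurable P →
  ∃ h : ℝ, 0 ≤ h ∧ Tendsto (fun N : ℕ => Hn μ T P N / (N : ℝ)) atTop (𝓝 h) ∧ (h : EReal) = ⨅ n : ℕ, ((Hn μ T P (n + 1) / (n + 1) : ℝ) : EReal)

/-- **Row CNC** (short). Concavity of `negMulLog` for each word: `μ(w) = μ(Y) μ_Y(w) + μ(Yᶜ) μ_(Yᶜ)(w)`. -/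
def CNC_stmt : Prop := ∀ (X : Type) [MeasurableSpace X] (μ : Measure X) (T : X → X) (p : ℕ) (P : X → Fin p) (Y : Set X) (N : ℕ), IsProbabilityMeasure μ → Measurable T → Measurable P →
  MeasurableSet Y → 0 < μ Y → 0 < μ Yᶜ →
    μ.real Y * Hn (ProbabilityTheory.cond μ Y) T P N + μ.real Yᶜ * Hn (ProbabilityTheory.cond μ Yᶜ) T P N ≤ Hn μ T P N

/-- **Row LOW** (medium). `μ' = cond μ Y` is invariant under `T` and `S` (`Y` is invariant). `Hn μ' N = ∫ -log (cyl μ' T P N x) dμ' = ∫ -log (cyl μ' T P N (S^n x)) dμ'` (a sum over the words; words of measure `0` do not matter), `N = 2n+1`. `cyl μ' ≤ cyl μ / μ Y`. Let `G_n` be the measurable set where the bound of the hypothesis holds; `μ' (G_n) → 1`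
(almost every point is in `G_n` for large `n`: dominated convergence). On `G_n` the integrand is `≥ N (J - ε) + log μ(Y)`, off `G_n` it is `≥ 0`, and `N ∫_(G_nᶜ) J ≤ N L μ'(G_nᶜ)`. -/
def LOW_stmt : Prop := ∀ (X : Type) [MeasurableSpace X] (μ : Measure X) (T S : X → X) (p : ℕ) (P : X → Fin p) (J : X → ℝ) (L ε : ℝ) (Y : Set X), IsProbabilityMeasure μ → Sys μ T S → Measurable P →
  Measurable J → (∀ x, 0 ≤ J x ∧ J x ≤ L) → MeasurableSet Y → (∀ x, T x ∈ Y ↔ x ∈ Y) → 0 < μ Y → 0 < ε →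
  (∀ᵐ x ∂μ, ∀ᶠ n : ℕ in atTop, cyl μ T P (2 * n + 1) (S^[n] x) ≤ Real.exp (-(((2 * n + 1 : ℕ) : ℝ) * (J x - ε)))) →
    ∀ δ : ℝ, 0 < δ → ∀ᶠ n : ℕ in atTop, ((2 * n + 1 : ℕ) : ℝ) * (∫ x, J x ∂(ProbabilityTheory.cond μ Y) - ε - δ) ≤ Hn (ProbabilityTheory.cond μ Y) T P (2 * n + 1)

/-- **Row AFF** (medium; from FEK, CNC, LOW). `Y = {J ≤ a}`, `y = μ Y`, `μ' = cond μ Y`, `μ'' = cond μ Yᶜ`; `Y` is invariant, so `μ'` is. FEK for `μ`, `μ'`: limits `h`, `h'`. If `μ Yᶜ = 0` then `μ' = μ` and `h ≤ ∫ J + ε ≤ a + ε`. Otherwise CNC for `N = 2n + 1`, LOW for `Yᶜ`, divided by `N → ∞`: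
`y h' + (1 - y) (∫ J dμ'' - ε) ≤ h ≤ ∫ J dμ + ε ≤ a y + (1 - y) ∫ J dμ'' + ε` (`(1 - y) ∫ J dμ'' = ∫_(Yᶜ) J dμ`), so `h' ≤ a + 2 ε / y`. -/
def AFF_stmt : Prop := ∀ (X : Type) [MeasurableSpace X] (μ : Measure X) (T S : X → X) (p : ℕ) (P : X → Fin p) (J : X → ℝ) (L ε a : ℝ), IsProbabilityMeasure μ → Sys μ T S → Measurable P →
  Measurable J → (∀ x, J (T x) = J x) → (∀ x, 0 ≤ J x ∧ J x ≤ L) → 0 < ε → 0 ≤ a →
  (⨅ n : ℕ, ((Hn μ T P (n + 1) / (n + 1) : ℝ) : EReal)) ≤ ((∫ x, J x ∂μ + ε : ℝ) : EReal) →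
  (∀ᵐ x ∂μ, ∀ᶠ n : ℕ in atTop, cyl μ T P (2 * n + 1) (S^[n] x) ≤ Real.exp (-(((2 * n + 1 : ℕ) : ℝ) * (J x - ε)))) →
  0 < μ {x | J x ≤ a} → ∀ δ : ℝ, 0 < δ → ∀ᶠ N : ℕ in atTop,
    Hn (ProbabilityTheory.cond μ {x | J x ≤ a}) T P N ≤ N * (a + 2 * ε / μ.real {x | J x ≤ a} + δ)

/-- **Row FEW** (short-medium; pure). `W` = the words with `μ(w) ≥ e^(-δN)`: `|W| e^(-δN) ≤ 1`, their cylinders are nonempty. The others: `Σ μ(w) ≤ (δN)⁻¹ Σ negMulLog μ(w) ≤ Hn/(δN) ≤ c/δ` (`-log μ(w) > δN`). -/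
def FEW_stmt : Prop := ∀ (X : Type) [MeasurableSpace X] (μ : Measure X) (T : X → X) (p : ℕ) (P : X → Fin p) (N : ℕ) (c δ : ℝ), IsProbabilityMeasure μ → Measurable T → Measurable P →
  0 < δ → 1 ≤ N → Hn μ T P N ≤ c * N → ∃ W : Finset (Fin N → Fin p), (W.card : ℝ) ≤ Real.exp (δ * N) ∧ (∀ w ∈ W, {x | ∀ i : Fin N, P (T^[i] x) = w i}.Nonempty) ∧
    1 - c / δ ≤ μ.real {x | ∃ w ∈ W, ∀ i : Fin N, P (T^[i] x) = w i}

/-- **Row CYB** (short-medium; EN.A_XFL, EN.A_XLF, RS.A_GLC; as in the proof of EN.XCY, helper6/EN/XCY.lean). `δ₀` of XLF, `δ' ≤ a/3` so small that `nr δ' h₁`, `nr δ' h₂` imply `nr (min δ₀ (a/3)) (h₁⁻¹ h₂)`. If the cylinder is empty take `y = 1`. Let `mkX y` be a point of it. For `mkX g` in it: `γ_i` with `nr (..) ((y a_i)⁻¹ γ_i (g a_i))` for `i < n`, all `γ_i = γ_0` (XLF);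
`h = y⁻¹ γ_0 g`: for `i = 0` the entries of `h - 1` are `< a/3`, for `i = n - 1` the lower left entry `|h10| e^(n-1) < a/3`. `x = mkX g = mkX (y h)`. -/
def CYB_stmt : Prop := ∀ (Γ : Subgroup SL(2, ℝ)) (a : ℝ), QU.SurfaceGroup Γ → 0 < a → ∃ δ : ℝ, 0 < δ ∧ ∀ (p : ℕ) (P : XG Γ → Fin p), Measurable P →
  (∀ i, (P ⁻¹' {i}).Nonempty → ∃ x, P ⁻¹' {i} ⊆ EN.Ux Γ δ x) → ∀ (n : ℕ) (w : Fin n → Fin p), 1 ≤ n →
    ∃ y : SL(2, ℝ), {x | ∀ i : Fin n, P ((fl Γ 1)^[i] x) = w i} ⊆ {x | ∃ h : SL(2, ℝ), bq a a (a * Real.exp (-n)) h ∧ x = mkX Γ (y * h)}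

/-- **Row NCH** (short; from LL.KAT, LL.ENG). KAT with `4 ε` for `a`: for every `κ > 0` a set `𝒢 ⊆ {4ε < J}` with `μ ({4ε < J} \ 𝒢) ≤ κ` and boxes `≤ C τ^(4ε)`; ENG with `α = ε < v = 4 ε < 2` (`Small Γ ε E` by the hypothesis, `ε < 1`): `μ (𝒢 ∩ pr⁻¹ E) = 0`. So the measure is `≤ κ`. -/
def NCH_stmt : Prop := ∀ (Γ : Subgroup SL(2, ℝ)) (μ : Measure (XG Γ)) (p : ℕ) (P : XG Γ → Fin p) (J : XG Γ → ℝ) (ε : ℝ) (E : Set (MG Γ)), QU.SurfaceGroup Γ →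
  IsProbabilityMeasure μ → (∀ t, μ.map (fl Γ t) = μ) → Measurable P → Measurable J → 0 < ε → ε ≤ 1 / 8 → MeasurableSet E →
  (∀ α : ℝ, 0 < α → Measure.hausdorffMeasure (1 + α) {z : ℍ | mkM Γ z ∈ E} = 0) →
  (∀ᵐ x ∂μ, ∀ᶠ n : ℕ in atTop, cyl μ (fl Γ 1) P (2 * n + 1) ((fl Γ (-1))^[n] x) ≤ Real.exp (-(((2 * n + 1 : ℕ) : ℝ) * (J x - ε)))) →
    μ ({x | 4 * ε < J x} ∩ pr Γ ⁻¹' E) = 0

/-- mass `m` of `μ` is covered by few boxes -/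
def CV (Γ : Subgroup SL(2, ℝ)) (μ : Measure (XG Γ)) (m a : ℝ) : Prop := ∀ δ : ℝ, 0 < δ → ∃ n0 : ℕ, ∀ n : ℕ, n0 ≤ n → ∃ A : Finset SL(2, ℝ), (A.card : ℝ) ≤ Real.exp (δ * n) ∧
  m - δ ≤ μ.real {x | ∃ y ∈ A, ∃ h : SL(2, ℝ), bq a a (a * Real.exp (-n)) h ∧ x = mkX Γ (y * h)}

/-- **Row EZC** (medium; from LL.LOC, AFF, FEW, CYB, NCH, EN.PAR, EN.A_XFL, EN.A_XTX, EN.A_XNB). `m = μ.real (pr⁻¹ E)`; if `m ≤ δ` take `A = ∅`. `δ₁` from CYB for `a`; `P` from PAR (`lam = μ`, `U = Ux Γ δ₁`, a neighbourhood by XNB) with cells in the `Ux Γ δ₁ x`. `T = fl 1`, `S = fl (-1)` (`Sys`: flow property and invariance). `ε ≤ 1/8` with `7 ε ≤ δ²`; `J` from LOC.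
`Y = {J ≤ 4ε}`; by NCH `m ≤ y = μ.real Y`, so `y > 0`. AFF (`a = 4ε`, `δ = ε`): for large `N` `Hn (cond μ Y) N ≤ N c`, `c = 5 ε + 2 ε / y`. FEW for `cond μ Y`: at most `e^(δN)` words, `μ ⋃ ≥ y (cond μ Y) ⋃ ≥ y - y c/δ ≥ m - 7ε/δ ≥ m - δ`. CYB: each cylinder is contained in a box; `A` = the set of the centres.
(The set in `CV` is a finite union of images of compact sets, so closed.) -/
def EZC_stmt : Prop := ∀ (Γ : Subgroup SL(2, ℝ)) (μ : Measure (XG Γ)) (E : Set (MG Γ)), QU.SurfaceGroup Γ → IsProbabilityMeasure μ → (∀ t, μ.map (fl Γ t) = μ) → MeasurableSet E →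
  (∀ α : ℝ, 0 < α → Measure.hausdorffMeasure (1 + α) {z : ℍ | mkM Γ z ∈ E} = 0) → ∀ a : ℝ, 0 < a → CV Γ μ (μ.real (pr Γ ⁻¹' E)) a

end Pool.Agent.MS
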