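import Pool.Agent.helper80.LL.All
import Pool.Agent.helper10.MS.CRE
import Pool.Agent.helper11.MS.SYB
import Pool.Agent.helper13.MS.SS1
import Pool.Agent.helper14.MS.HDV
import Pool.Agent.helper18.MS.CNC
import Pool.Agent.helper20.MS.MU
import Pool.Agent.helper22.MS.GKF
import Pool.Agent.helper24.MS.EQ3
import Pool.Agent.helper25.MS.MS1
import Pool.Agent.helper27.MS.MS2
import Pool.Agent.helper28.MS.CVK
import Pool.Agent.helper29.MS.DYA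
import Pool.Agent.helper29.MS.SML
import Pool.Agent.helper30.MS.CNV
import Pool.Agent.helper30.MS.EZ2
import Pool.Agent.helper33.MS.AS3
import Pool.Agent.helper35.MS.INW
import Pool.Agent.helper38.MS.OI2
import Pool.Agent.helper39.MS.DU1
import Pool.Agent.helper39.MS.EQ2
import Pool.Agent.helper39.MS.QW
import Pool.Agent.helper40.MS.LOW
import Pool.Agent.helper41.MS.EQ4
import Pool.Agent.helper41.MS.HD2
import Pool.Agent.helper43.MS.NM3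
import Pool.Agent.helper44.MS.EZC
import Pool.Agent.helper48.MS.AFF
import Pool.Agent.helper49.MS.OV3
import Pool.Agent.helper50.MS.FEW
import Pool.Agent.helper51.MS.SS2
import Pool.Agent.helper52.MS.BXU
import Pool.Agent.helper54.MS.OSC
import Pool.Agent.helper59.MS.FNM
import Pool.Agent.helper61.MS.EQ1
import Pool.Agent.helper64.MS.STB
import Pool.Agent.helper65.MS.NC2
import Pool.Agent.helper65.MS.NCH
import Pool.Agent.helper67.MS.QM3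
import Pool.Agent.helper68.MS.CYB
import Pool.Agent.helper68.MS.INV
import Pool.Agent.helper72.MS.FEK
import Pool.Agent.helper72.MS.SS3
import Pool.Agent.helper74.MS.BXF
import Pool.Agent.helper74.MS.BXG
import Pool.Agent.helper79.MS.SCH
import Pool.Agent.helper87.MS.BXM
import Pool.Agent.helper89.MS.RHP
import Pool.Agent.helper9.MS.AS1
import Pool.Agent.helper92.MS.REP
import Pool.Agent.helper98.MS.PCK

/-!
# MP_07c750, MS: maximal scarring: assembly of the rows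
-/

set_option autoImplicit false

namespace Pool.Agent.MS

theorem A_RHP : RHP_stmt := RHP_proof
theorem A_NM3 : NM3_stmt := NM3_proof RS.A_ALH RS.A_BK5 RS.A_CV1 RS.A_FL0 RS.A_GR2 RS.A_EF1 RS.A_NR5
theorem A_STB : STB_stmt := STB_proof
theorem A_QM3 : QM3_stmt := QM3_proof A_NM3 A_STB
theorem A_EQ1 : EQ1_stmt := EQ1_proof RS.A_BK5 RS.A_GR2 RS.A_CV1 RS.A_FL0
theorem A_EQ2 : EQ2_stmt := EQ2_proof RS.A_GWB RS.A_CV1 RS.A_FL0 RS.A_GLC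
theorem A_EQ3 : EQ3_stmt := EQ3_proof A_STB A_EQ1 A_EQ2 RS.A_GLC RS.A_GFD RS.A_GBD RS.A_CV1 RS.A_FL0
theorem A_EQ4 : EQ4_stmt := EQ4_proof A_EQ3 A_NM3 A_STB RS.A_GFD RS.A_GBD RS.A_FL0 RS.A_CV1
theorem A_QW : QW_stmt := QW_proof A_QM3 A_EQ4 A_STB RS.A_GLC
theorem A_MU : MU_stmt := MU_proof A_RHP A_NM3 A_QW A_STB EN.A_LM1 EN.A_XFL EN.A_XTX EN.A_XTM RS.A_CV1
theorem A_FEK : FEK_stmt := FEK_proof EN.A_HSB EN.A_HLG
theorem A_CNC : CNC_stmt := CNC_proof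
theorem A_LOW : LOW_stmt := LOW_proof
theorem A_AFF : AFF_stmt := AFF_proof A_FEK A_CNC A_LOW
theorem A_FEW : FEW_stmt := FEW_proof
theorem A_CYB : CYB_stmt := CYB_proof EN.A_XFL EN.A_XLF
theorem A_NCH : NCH_stmt := NCH_proof LL.A_KAT LL.A_ENG
theorem A_EZC : EZC_stmt := EZC_proof LL.A_LOC A_AFF A_FEW A_CYB A_NCH EN.A_PAR EN.A_XFL EN.A_XTX EN.A_XNB
theorem A_INV : INV_stmt := INV_proof RS.A_GLC RS.A_GFD RS.A_GBD RS.A_GWB RS.A_BK3 RS.A_CV1 RS.A_FL0 RS.A_GR2 RS.A_INA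
theorem A_SYB : SYB_stmt := SYB_proof RS.A_GDU RS.A_GWB RS.A_GFD RS.A_GBD
theorem A_REP : REP_stmt := REP_proof RS.A_GDU RS.A_GR2 RS.A_GWB RS.A_GYN RS.A_GBD RS.A_FL0
theorem A_SCH : SCH_stmt := SCH_proof
theorem A_AS1 : AS1_stmt := AS1_proof A_SYB A_REP A_SCH RS.A_GLC RS.A_GR2 RS.A_GWB RS.A_GFD RS.A_GBD RS.A_GPE RS.A_FL0
theorem A_AS3 : AS3_stmt := AS3_proof A_NM3 A_EQ4 A_QM3 A_STB RS.A_GLC RS.A_GFD RS.A_GBD RS.A_GWB RS.A_FL0 RS.A_CV1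
theorem A_BXF : BXF_stmt := BXF_proof
theorem A_BXU : BXU_stmt := BXU_proof A_BXF
theorem A_CVK : CVK_stmt := CVK_proof
theorem A_CNV : CNV_stmt := CNV_proof A_CVK EN.A_XDS EN.A_XVO RS.A_GLI
theorem A_DYA : DYA_stmt := DYA_proof
theorem A_OI2 : OI2_stmt := OI2_proof
theorem A_OV3 : OV3_stmt := OV3_proof
theorem A_GKF : GKF_stmt := GKF_proof
theorem A_OSC : OSC_stmt := OSC_proof A_OI2 A_OV3 A_GKF
theorem A_SS1 : SS1_stmt := SS1_proof A_CNV A_DYA A_OSC A_GKF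
theorem A_HDV : HDV_stmt := HDV_proof RS.A_QEX RS.A_GLC RS.A_GMG
theorem A_SS2 : SS2_stmt := SS2_proof A_HDV A_DYA A_OSC A_GKF RS.A_GLC
theorem A_MS1 : MS1_stmt := MS1_proof A_STB A_NM3 A_INV A_AS1 A_AS3 A_BXU A_SS1 A_SS2 RS.A_CV1 RS.A_FL0 RS.A_GFD RS.A_GBD RS.A_GLC
theorem A_CRE : CRE_stmt := CRE_proof A_MU A_EZC A_MS1 A_STB
theorem A_FNM : FNM_stmt := FNM_proof A_CRE EN.A_XTM EN.A_XFL QU.A_DOM QU.A_DOB
theorem A_SML : SML_stmt := SML_proof A_FEK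
theorem A_NC2 : NC2_stmt := NC2_proof LL.A_KAT LL.A_ENG
theorem A_EZ2 : EZ2_stmt := EZ2_proof LL.A_LOC A_SML A_NC2 A_CYB EN.A_PAR EN.A_XFL EN.A_XTX EN.A_XNB
theorem A_INW : INW_stmt := INW_proof RS.A_GLC RS.A_GFD RS.A_GBD RS.A_GWB RS.A_BK3 RS.A_CV1 RS.A_FL0 RS.A_GR2 RS.A_INA
theorem A_BXG : BXG_stmt := BXG_proof
theorem A_PCK : PCK_stmt := PCK_proof
theorem A_BXM : BXM_stmt := BXM_proof A_BXG A_PCK
theorem A_HD2 : HD2_stmt := HD2_proof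
theorem A_SS3 : SS3_stmt := SS3_proof A_HD2 A_DYA A_OSC A_GKF
theorem A_MS2 : MS2_stmt := MS2_proof A_STB A_NM3 A_EQ4 A_INW A_AS1 A_BXM A_SS1 A_SS3 RS.A_CV1 RS.A_FL0 RS.A_GFD RS.A_GBD RS.A_GLC
theorem A_DU1 : DU1_stmt := DU1_proof A_MU A_EZ2 A_MS2 A_STB EN.A_XFL QU.A_DOM QU.A_DOB

end Pool.Agent.MS
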