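import Pool.Agent.helper62.MS.SpecF

/-!
# MP_07c750, project MS: block D (duality of the dimensions; idea of helper84), rows `ms:X`

THEOREM (DU). Let `ν` be a weak limit of `|φ_k|² dz`, `φ_k` normalised eigenfunctions with eigenvalues `→ ∞` on a closed hyperbolic surface. If the Borel set `E` has Hausdorff dimension `< 2` and the Borel set `E'` has area zero, then
`ν(E) + ν(E') ≤ 1`. So the absolutely continuous part of `ν` has mass at least `ν(E)`, and `ν(E) ≤ 1/2`.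

PROOF. As for MS. The part of the lift `μ` over `E` has local entropy `≤ α/2 < 1/2` and is covered by `e^((α/2+δ)n)` boxes of length `n`; the part over `E'` by `e^((1/2+δ)n)` boxes. `B` = the set of the `g` with `g a_t1` in the first boxes (`t1 = log r - n - const`), `D` = the set of the `g` with `g a_(-n)` in the second ones. On stable arcs of
length `1` the set `D` has measure `≤ C |A'| e^(-n)`, so Schur's test gives the bound `C |A| |A'| e^(-n) → 0` for the mass of the part synthesised from `B` on `D`. Hence `mass B + mass D ≤ 1 + o(1)`.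

Rules as in `SpecA`.
-/

open scoped MatrixGroups ContDiff Topology UpperHalfPlane ComplexConjugate
open UpperHalfPlane MeasureTheory Filter Set

namespace Pool.Agent.MS

open Pool.Agent.RS
open Pool.Agent.EN (XG MG mkX mkM fl pr)

/-- **Row INW** (medium; INV with two constants; the same proof, RS: INA, GR2, BK3, CV1, FL0, GLC, GFD, GBD, GWB; compare helper6/RS/INB.lean and row INV). `Ψ_τ(g) = Ψ(g a_τ)` has the derivatives `Ψa`, `e^(-τ) Ψn`, `e^τ Ψl` at `g a_τ`; INA with `B0 = 1`, `e^(-τ) Bn`, `e^τ Bl`; times `r` the derivative of `iR F (Ψ_τ |P|²)` is at most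
`K (e^(-τ) Bn + (1 + e^τ Bl)/r) nn`. Integrate over `[t, t']`. -/
def INW_stmt : Prop := ∀ (Γ : Subgroup SL(2, ℝ)) (F : Set ℍ) (β α : ℝ → ℝ), QU.SurfaceGroup Γ → QU.NiceDom Γ F → BB (1 / 4) β → BA (1 / 4) α →
  ∃ K r1 : ℝ, 1 ≤ K ∧ 1 ≤ r1 ∧ ∀ (r : ℝ) (φ : ℍ → ℂ), r1 ≤ r → EigL Γ (1 / 4 + r ^ 2) φ → ∀ (Ψ Ψa Ψn Ψl : SL(2, ℝ) → ℝ) (Bn Bl : ℝ), SF Γ Ψ Ψa Ψn Ψl →
    (∀ g, |Ψ g| ≤ 1) → (∀ g, |Ψn g| ≤ Bn) → (∀ g, |Ψl g| ≤ Bl) → ∀ t t' : ℝ, 0 ≤ t → t ≤ t' →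
      |r * iR F (fun g => Ψ (g * aM t') * ‖pf β α r φ g‖ ^ 2) - r * iR F (fun g => Ψ (g * aM t) * ‖pf β α r φ g‖ ^ 2)| ≤
        K * (Bn * Real.exp (-t) + (t' + Bl * Real.exp t') / r) * nn F φ

/-- **Row BXG** (BXF with the sharp derivative along `nM`; the same proof: `h nM(x)` changes `h01` by `x h00` and `h11` by `x h10` and leaves `h00`, `h10`, so `|Ψn| ≤ C`). -/
def BXG_stmt : Prop := ∀ Γ : Subgroup SL(2, ℝ), QU.SurfaceGroup Γ → ∃ a0 : ℝ, 0 < a0 ∧ a0 ≤ 1 / 8 ∧ ∀ a : ℝ, 0 < a → a ≤ a0 → ∃ C : ℝ, 0 < C ∧ ∀ (n : ℝ) (y : SL(2, ℝ)), 0 ≤ n →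
  ∃ Ψ Ψa Ψn Ψl : SL(2, ℝ) → ℝ, SF Γ Ψ Ψa Ψn Ψl ∧ (∀ g, 0 ≤ Ψ g ∧ Ψ g ≤ 1) ∧ (∀ g, |Ψn g| ≤ C) ∧ (∀ g, |Ψl g| ≤ C * Real.exp n) ∧
    (∀ g, (∃ γ : Γ, bq a a (a * Real.exp (-n)) (y⁻¹ * (γ : SL(2, ℝ)) * g)) → Ψ g = 1) ∧
    ∀ g, (Ψ g ≠ 0 ∨ Ψn g ≠ 0 ∨ Ψl g ≠ 0) → ∃ γ : Γ, bq (2 * a) (2 * a) (2 * a * Real.exp (-n)) (y⁻¹ * (γ : SL(2, ℝ)) * g)

/-- **Row PCK** (packing; medium; EN.A_XDS, pure matrices). Call `y`, `y'` close if `∃ γ, bq (5a) (5a) (5 a e^(-n)) (y⁻¹ γ y')`. Let `A' ⊆ A` be a maximal subset of pairwise not close elements (take care that `bq` is symmetric only up to constants: choose `A'` maximal such that no two different elements are close in any order).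
(1) a point in the `a`-box of `y ∈ A`, `y` close to `y' ∈ A'` (or `y'` to `y`) is in the `8a`-box of `y'`: `y'⁻¹ γ' g = (y'⁻¹ γ'' y)(y⁻¹ γ g)`, products of `bq (5a) (5a) (5ae^(-n))` and `bq a a (ae^(-n))` (also of inverses) are `bq (8a) (8a) (8ae^(-n))` for small `a`. (2) multiplicity: if `h_i = y_i⁻¹ γ_i g` are `bq (16a) (16a) (16ae^(-n))` for different `y_i ∈ A'` then
`y_i⁻¹ γ y_j = h_i h_j⁻¹`. Divide the box `bq (16a) (16a) (16ae^(-n))` into `M = M(a)`... in fact `M ≤ 100^4` small boxes (the four entries `(h00-1)/a, (h11-1)/a, h01/a, h10 e^n/a` are in `[-16, 16]`; a grid of step `1/2`): if `h_i`, `h_j` are in the same small box then `h_i h_j⁻¹` satisfies `bq (5a) (5a) (5ae^(-n))` for small `a`, so `y_i`, `y_j` would be close. -/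
def PCK_stmt : Prop := ∀ Γ : Subgroup SL(2, ℝ), QU.SurfaceGroup Γ → ∃ (a0 : ℝ) (M : ℕ), 0 < a0 ∧ a0 ≤ 1 / 100 ∧ ∀ (a n : ℝ) (A : Finset SL(2, ℝ)), 0 < a → a ≤ a0 → 0 ≤ n →
  ∃ A' ⊆ A, (∀ g : SL(2, ℝ), (∃ y ∈ A, ∃ γ : Γ, bq a a (a * Real.exp (-n)) (y⁻¹ * (γ : SL(2, ℝ)) * g)) →
      ∃ y ∈ A', ∃ γ : Γ, bq (8 * a) (8 * a) (8 * a * Real.exp (-n)) (y⁻¹ * (γ : SL(2, ℝ)) * g)) ∧
    ∀ g : SL(2, ℝ), {y | y ∈ A' ∧ ∃ γ : Γ, bq (16 * a) (16 * a) (16 * a * Real.exp (-n)) (y⁻¹ * (γ : SL(2, ℝ)) * g)}.ncard ≤ M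

/-- **Row BXM** (unions of boxes with bounded derivatives; short-medium; from BXG, PCK). `Ψ = 1 - Π_(y ∈ A') (1 - Ψ_y)`, `Ψ_y` from BXG for `8a` in place of `a`, `A'` from PCK: at every point at most `M` factors (and their derivatives along `nM`, `lM`) are not `1` (`0`), so `|Ψn| ≤ Σ_y |Ψ_y,n| ≤ M C`, `|Ψl| ≤ M C e^n`. -/
def BXM_stmt : Prop := ∀ Γ : Subgroup SL(2, ℝ), QU.SurfaceGroup Γ → ∃ a0 : ℝ, 0 < a0 ∧ a0 ≤ 1 / 100 ∧ ∀ a : ℝ, 0 < a → a ≤ a0 → ∃ C : ℝ, 0 < C ∧ ∀ (n : ℝ) (A : Finset SL(2, ℝ)), 0 ≤ n →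
  ∃ Ψ Ψa Ψn Ψl : SL(2, ℝ) → ℝ, SF Γ Ψ Ψa Ψn Ψl ∧ (∀ g, 0 ≤ Ψ g ∧ Ψ g ≤ 1) ∧ (∀ g, |Ψn g| ≤ C) ∧ (∀ g, |Ψl g| ≤ C * Real.exp n) ∧
    (∀ g, (∃ y ∈ A, ∃ γ : Γ, bq a a (a * Real.exp (-n)) (y⁻¹ * (γ : SL(2, ℝ)) * g)) → Ψ g = 1) ∧
    ∀ g, Ψ g ≠ 0 → ∃ y ∈ A, ∃ γ : Γ, bq (16 * a) (16 * a) (16 * a * Real.exp (-n)) (y⁻¹ * (γ : SL(2, ℝ)) * g)

/-- **Row HD2** (thin boxes on stable arcs; medium; from RS: GLC, GMG, EN.A_XDS, QU.A_DOB). Let `z₀ = y⁻¹ γ g` and `q = z₀ k⁻¹`, `bq a v a q`, entries of `k` `≤ 3`: so `z₀ = q k` has entries `≤ 8`; the number of `γ ∈ Γ` with `y⁻¹ γ g` bounded by `8` is at most `N₀(Γ)` (two of them: `y⁻¹ γ' γ⁻¹ y` is bounded; cocompactness and discreteness, compare row LL.KFN).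
Fix `γ`. GMG coordinates `k = toSL2R z * kM θ`: `k⁻¹ = kM(-θ) aM(-log y) nM(-x)`, with `m = z₀ kM(-θ) aM(-log y)`: `q = m nM(-x)`, `q00 = m00`, `q01 = m01 - x m00`. As `|m00 - 1| ≤ a ≤ 1/8`, for fixed `θ`, `y` the `x` with `|q01| ≤ v` form an interval of length `≤ 4v`. As in HDV `1/18 ≤ y ≤ 18` and `|sin θ| ≤ 5ρ`, of measure `≤ 40ρ`. -/
def HD2_stmt : Prop := ∀ Γ : Subgroup SL(2, ℝ), QU.SurfaceGroup Γ → ∃ C : ℝ, 0 < C ∧ ∀ (a v ρ : ℝ) (y g : SL(2, ℝ)), 0 < a → a ≤ 1 / 8 → 0 < v → v ≤ 1 → 0 < ρ →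
  mG {k : SL(2, ℝ) | (∀ i j, |k.1 i j| ≤ 3) ∧ |k.1 1 0| ≤ ρ ∧ ∃ γ : Γ, bq a v a (y⁻¹ * (γ : SL(2, ℝ)) * (g * k⁻¹))} ≤ ENNReal.ofReal (C * v * ρ)

/-- **Row SS3** (Schur's bound over thin boxes; short-medium; from HD2, DYA, OSC, GKF). As SS1, SS2: for each `y ∈ A`: DYA with `A = 0`, `B = C v`, `lam = e^(-T) r`; sum over `y`. -/
def SS3_stmt : Prop := ∀ (Γ : Subgroup SL(2, ℝ)) (β0 α0 β α : ℝ → ℝ), QU.SurfaceGroup Γ → SB (1 / 4) β0 → SB (1 / 4) α0 → SB (1 / 4) β → SB (1 / 4) α →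
  ∃ C : ℝ, 0 < C ∧ ∀ (a T r v : ℝ) (A : Finset SL(2, ℝ)) (g : SL(2, ℝ)), 0 < a → a ≤ 1 / 8 → 0 ≤ T → 1 ≤ r → 0 < v → v ≤ 1 →
    ∫⁻ k in {k : SL(2, ℝ) | ∃ y ∈ A, ∃ γ : Γ, bq a v a (y⁻¹ * (γ : SL(2, ℝ)) * (g * k⁻¹))},
      ENNReal.ofReal ‖gk r (pc (st (-T) β0) α0) (pc β α) k‖ ∂mG ≤ ENNReal.ofReal (C * A.card * v * Real.exp (T / 2) / r)

/-- **Row SML** (the theorem of Shannon and McMillan in `L¹`; medium; from FEK). `N = 2n+1`, `f_n(x) = -(1/N) log cyl N (S^n x) ≥ 0`, `∫ f_n = Hn N / N → h ≤ ∫ J + ε` (FEK; sum over words, invariance of `μ` under `S^n`). `G_n` = the set where `f_n ≥ J - ε`; `μ(G_n) → 1`. `∫ (f_n - J + ε)₊ = ∫ (f_n - J + ε) + ∫ (f_n - J + ε)₋ ≤ (Hn N/N - ∫ J + ε) + L μ(G_nᶜ) ≤ 5ε/2`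
for large `n`, so `μ {f_n > J + κ} ≤ 3 ε / κ` (Markov). -/
def SML_stmt : Prop := ∀ (X : Type) [MeasurableSpace X] (μ : Measure X) (T S : X → X) (p : ℕ) (P : X → Fin p) (J : X → ℝ) (L ε : ℝ), IsProbabilityMeasure μ → LL.Sys μ T S → Measurable P →
  Measurable J → (∀ x, 0 ≤ J x ∧ J x ≤ L) → 0 < ε →
  (⨅ n : ℕ, ((EN.Hn μ T P (n + 1) / (n + 1) : ℝ) : EReal)) ≤ ((∫ x, J x ∂μ + ε : ℝ) : EReal) →
  (∀ᵐ x ∂μ, ∀ᶠ n : ℕ in atTop, LL.cyl μ T P (2 * n + 1) (S^[n] x) ≤ Real.exp (-(((2 * n + 1 : ℕ) : ℝ) * (J x - ε)))) →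
    ∀ κ : ℝ, 0 < κ → ∀ᶠ n : ℕ in atTop, μ {x | LL.cyl μ T P (2 * n + 1) (S^[n] x) < Real.exp (-(((2 * n + 1 : ℕ) : ℝ) * (J x + κ)))} ≤ ENNReal.ofReal (3 * ε / κ)

/-- **Row NC2** (short; from LL.KAT, LL.ENG; as NCH). KAT with `a = α/2 + 3 ε`, `v = 2 (a - 2 ε) = α + 2 ε < 2`, ENG. -/
def NC2_stmt : Prop := ∀ (Γ : Subgroup SL(2, ℝ)) (μ : Measure (XG Γ)) (p : ℕ) (P : XG Γ → Fin p) (J : XG Γ → ℝ) (ε α : ℝ) (E : Set (MG Γ)), QU.SurfaceGroup Γ →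
  IsProbabilityMeasure μ → (∀ t, μ.map (fl Γ t) = μ) → Measurable P → Measurable J → 0 < ε → ε ≤ 1 / 8 → 0 < α → α ≤ 1 → MeasurableSet E → LL.Small Γ α E →
  (∀ᵐ x ∂μ, ∀ᶠ n : ℕ in atTop, LL.cyl μ (fl Γ 1) P (2 * n + 1) ((fl Γ (-1))^[n] x) ≤ Real.exp (-(((2 * n + 1 : ℕ) : ℝ) * (J x - ε)))) →
    μ ({x | α / 2 + 3 * ε < J x} ∩ pr Γ ⁻¹' E) = 0

/-- mass `m` of `μ` is covered by `e^((ρ + δ) n)` boxes -/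
def CW (Γ : Subgroup SL(2, ℝ)) (μ : Measure (XG Γ)) (m a ρ : ℝ) : Prop := ∀ δ : ℝ, 0 < δ → ∃ n0 : ℕ, ∀ n : ℕ, n0 ≤ n → ∃ A : Finset SL(2, ℝ), (A.card : ℝ) ≤ Real.exp ((ρ + δ) * n) ∧
  m - δ ≤ μ.real {x | ∃ y ∈ A, ∃ h : SL(2, ℝ), bq a a (a * Real.exp (-n)) h ∧ x = mkX Γ (y * h)}

/-- **Row EZ2** (medium; from LL.LOC, SML, NC2, CYB, EN.PAR, EN.A_XFL, EN.A_XTX, EN.A_XNB). `m = μ.real (pr⁻¹ E)`. `P` with small cells (CYB, PAR) as in EZC. `κ = δ/8`, `ε ≤ min (1/8) (δ/24)` with `3 ε/κ ≤ δ/2`, `J` from LOC, `Y = {J ≤ α/2 + 3ε}` (invariant), `m ≤ μ Y` (NC2). For large `k`, `N = 2k+1` (SML): the set of the `x ∈ Y` with `cyl N (S^k x) ≥ e^(-N(α/2 + 3ε + κ))` has measure `≥ m - δ/2`;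
its image under `S^k` (same measure, `Y` is invariant) consists of points `y` with `cyl N y ≥ e^(-N (α/2 + δ/4))`: they lie in at most `e^(N(α/2 + δ/4))` cylinders of length `N`, each of them in a box with `a e^(-N)` (CYB). For given large `n` choose `N ∈ {n, n+1}` odd: `e^(-N) ≤ e^(-n)` and `(α/2 + δ/4)(n+1) ≤ (α/2 + δ) n`. -/
def EZ2_stmt : Prop := ∀ (Γ : Subgroup SL(2, ℝ)) (μ : Measure (XG Γ)) (E : Set (MG Γ)) (α : ℝ), QU.SurfaceGroup Γ → IsProbabilityMeasure μ → (∀ t, μ.map (fl Γ t) = μ) → MeasurableSet E →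
  0 < α → α ≤ 1 → LL.Small Γ α E → ∀ a : ℝ, 0 < a → CW Γ μ (μ.real (pr Γ ⁻¹' E)) a (α / 2)

/-- **Row MS2** (the main estimate for the duality; medium-long; from STB, NM3, EQ4, INW, AS1, BXM, SS1, SS3, RS: CV1, GFD, GWB, GBD, GLC; compare the docstring of MS1). All packets are made of `β`, `α`: `c = pc β α`, `c' = pc (st (-T) β) α`. `a1`, `C1` from SS1, `C2` from SS3, `a2` from BXM, `a = min a2 (a1/16)`, `C3 ≥ 1` from BXM for `a`, `K ≥ 1` from INW.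
`δ = min ((1 - ρ - ρ')/4) (ε/200)²`; `s ≥ 0` with `K C3 e^(-s) ≤ δ/2`; `n1` with `C e^(-(1 - ρ - ρ' - 2δ) n) ≤ δ²` for `n ≥ n1`, `C` = the constant below. Given `n`, `A`, `A'`: `Ψ`, `Ψ'` from BXM. `T = n + s`, `X = δ r/(2 K C3 e^n)`, `t1 = log X`, `U = e^(-n)/X`, `B = {g | Ψ (g a_t1) ≠ 0}`, `D = {g | Ψ' (g a_(-n)) ≠ 0}`.
(1) INW from `t` to `t1`: `r ∫_B |b|² ≥ r iR F (Ψ (g a_t1)|b|²) ≥ r iR F (Ψ (g a_t) |b|²) - δ` for large `r` (error `K (C3 e^(-t) + (t1 + C3 e^n X)/r)`). (2) INW from `s` to `t` for `Ψ'` (error `≤ K C3 e^(-s) + K (t + C3 e^n e^t)/r ≤ δ`, `e^t ≤ r e^(-√log r)`) and EQ4 (`T`, `α1 = α2 = α`, `Ψ'(g a_s)`; `Ψ'(g a_(-T) a_s) = Ψ'(g a_(-n))`):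
`r ∫_D ‖pf (st (-T) β) α‖² ≥ r iR F (Ψ'(g a_(-n)) ‖pf (st (-T) β) α‖²) ≥ r iR F (Ψ'(g a_s) |b|²) - δ ≥ r iR F (Ψ'(g a_t)|b|²) - 2δ`. So (hypothesis, `r qn ∈ [1 - δ, 1 + δ]`, `m ≤ 2`) `x + y ≥ m - 10 δ` for `x = r ∫_B |b|²`, `y = r ∫_D ‖..‖²`. (3) `g ∈ B` implies `bq (16a) (16aX) (16aU) ((y aM(-t1))⁻¹ γ g)`: SS1: `r S1 ≤ C1 |A| e^(-T/2) (2 K C3/δ)(1 + δ e^s/(2 K C3))`;
`g ∈ D` implies `bq (16a) (16 a e^(-n)) (16a) ((y aM n)⁻¹ γ g)`, `16a ≤ 1/8`: SS3 with `v = 16 a e^(-n)`: `r S2 ≤ C2 |A'| 16 a e^(-n) e^(T/2)`. So `r² S1 S2 ≤ C |A| |A'| e^(-n) ≤ C e^((ρ + ρ' + 2δ - 1) n) ≤ δ²`. (4) AS1 with `η = δ`, `r ∫_(Bᶜ) |b|² ≤ 1 + δ - x`: `(1-δ) √y ≤ √2 δ + (1+δ) √(1 + δ - x)`, so `y ≤ 1 - x + 100 √δ` and `m ≤ 1 + 10 δ + 100 √δ ≤ 1 + ε`. -/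
def MS2_stmt : Prop := ∀ (Γ : Subgroup SL(2, ℝ)) (F : Set ℍ) (β α : ℝ → ℝ) (ρ ρ' : ℝ), QU.SurfaceGroup Γ → QU.NiceDom Γ F → BB (1 / 4) β → BA (1 / 8) α → 0 ≤ ρ → 0 ≤ ρ' → ρ + ρ' < 1 →
  ∀ ε : ℝ, 0 < ε → ε ≤ 1 → ∃ (a δ : ℝ) (n1 : ℕ), 0 < a ∧ 0 < δ ∧ δ ≤ ε ∧ ∀ n : ℕ, n1 ≤ n → ∀ A A' : Finset SL(2, ℝ), (A.card : ℝ) ≤ Real.exp ((ρ + δ) * n) → (A'.card : ℝ) ≤ Real.exp ((ρ' + δ) * n) →
    ∃ (Ψ Ψ' : SL(2, ℝ) → ℝ) (r2 : ℝ), InvG Γ Ψ ∧ InvG Γ Ψ' ∧ (∀ g, 0 ≤ Ψ g ∧ Ψ g ≤ 1) ∧ (∀ g, 0 ≤ Ψ' g ∧ Ψ' g ≤ 1) ∧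
      (∀ g, (∃ y ∈ A, ∃ γ : Γ, bq a a (a * Real.exp (-n)) (y⁻¹ * (γ : SL(2, ℝ)) * g)) → Ψ g = 1) ∧
      (∀ g, (∃ y ∈ A', ∃ γ : Γ, bq a a (a * Real.exp (-n)) (y⁻¹ * (γ : SL(2, ℝ)) * g)) → Ψ' g = 1) ∧ 1 ≤ r2 ∧
      ∀ (r m t : ℝ) (φ : ℍ → ℂ), r2 ≤ r → EigL Γ (1 / 4 + r ^ 2) φ → nn F φ = 1 → 0 ≤ m → m ≤ 2 → Real.sqrt (Real.log r) ≤ t → t ≤ Real.log r - Real.sqrt (Real.log r) →
        (m - 4 * δ) * qn F (pc β α) r φ < iR F (fun g => (Ψ (g * aM t) + Ψ' (g * aM t)) * ‖pf β α r φ g‖ ^ 2) → m ≤ 1 + ε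

/-- **Row DU1** (short-medium; from MU, EZ2, MS2, STB, EN.A_XFL, QU.A_DOM, QU.A_DOB; compare CRE). Nice domain `F₀` (integrals of invariant functions agree). `β`, `α` from STB, `μ` from MU; `ρ = α1/2`, `ρ' = α2/2`, `ρ + ρ' < 1`. For `ε`: `a`, `δ`, `n1` from MS2, `n ≥ n1` and `A`, `A'` from EZ2 for `E`, `E'` (with `δ`), `Ψ`, `Ψ'`. They descend to continuous functions on `X` with `∫ (Ψ + Ψ') dμ ≥ ν(E) - δ + ν(E') - δ > m - 4δ`,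
`m = ν(E) + ν(E') ≤ 2`. MU: infinitely many `k`, so some `k` with `r k ≥ r2`: `m ≤ 1 + ε`. -/
def DU1_stmt : Prop := ∀ (Γ : Subgroup SL(2, ℝ)) (F : Set ℍ) (r : ℕ → ℝ) (φ : ℕ → ℍ → ℂ) (ν : Measure (MG Γ)) (E E' : Set (MG Γ)) (α1 α2 : ℝ), QU.SurfaceGroup Γ →
  IsFundamentalDomain Γ F (volume : Measure ℍ) → Tendsto r atTop atTop → (∀ k, Eig Γ (r k) (φ k)) → (∀ k, ∫ z in F, ‖φ k z‖ ^ 2 = 1) → IsFiniteMeasure ν →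
  (∀ V : MG Γ → ℝ, Continuous V → Tendsto (fun k => ∫ z in F, V (mkM Γ z) * ‖φ k z‖ ^ 2) atTop (𝓝 (∫ x, V x ∂ν))) → MeasurableSet E → MeasurableSet E' →
  0 < α1 → α1 ≤ 1 → 0 < α2 → α2 ≤ 1 → α1 + α2 < 2 → LL.Small Γ α1 E → LL.Small Γ α2 E' → ν E + ν E' ≤ 1

end Pool.Agent.MS
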