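import Pool.Agent.helper62.MS.SpecE

/-!
# MP_07c750, project MS: block F (the limit measure and the assembly), rows `ms:X`

Rules as in `SpecA`.
-/

open scoped MatrixGroups ContDiff Topology UpperHalfPlane ComplexConjugate
open UpperHalfPlane MeasureTheory Filter Set

namespace Pool.Agent.MS

open Pool.Agent.RS
open Pool.Agent.EN (XG MG mkX mkM fl pr)

/-- the packet measure of one eigenfunction -/
noncomputable def rh (Γ : Subgroup SL(2, ℝ)) (F : Set ℍ) (c : ℍ → ℂ) (r : ℝ) (φ : ℍ → ℂ) : Measure (XG Γ) :=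
  (ENNReal.ofReal (qn F c r φ))⁻¹ • ((mG.restrict (dG F)).withDensity (fun g => ENNReal.ofReal (‖Wf (RS.pk r c) φ g‖ ^ 2))).map (mkX Γ)

/-- **Row RHP** (short-medium; EN.A_XFL, RS: GFD, GWB, GBD, FL0; compare helper27/EN/WTP.lean). -/
def RHP_stmt : Prop := ∀ (Γ : Subgroup SL(2, ℝ)) (F : Set ℍ) (c : ℍ → ℂ) (r : ℝ) (φ : ℍ → ℂ), QU.SurfaceGroup Γ → QU.NiceDom Γ F → TB (1 / 4) c → InvC Γ φ → 0 < qn F c r φ →
  IsProbabilityMeasure (rh Γ F c r φ) ∧ ∀ Ψ : XG Γ → ℝ, Measurable Ψ → (∃ m : ℝ, ∀ x, |Ψ x| ≤ m) →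
    qn F c r φ * ∫ x, Ψ x ∂(rh Γ F c r φ) = iR F (fun g => Ψ (mkX Γ g) * ‖Wf (RS.pk r c) φ g‖ ^ 2)

/-- **Row MU** (the lift; medium-long; from RHP, NM3, QW, STB, EN.A_LM1, EN.A_XFL, EN.A_XTX, EN.A_XTM, RS.A_ESM; compare helper65/EN/GMU.lean and helper80/EN/FNC.lean). Let `c = pc β α`, `ρ_k = (rh Γ F c (r k) (φ k)).map (fl Γ (√(log (r k))))` (for large `k`; `qn > 0` by NM3; any Dirac measure for the other `k`), `n_k = ⌊log (r k) - 2 √(log (r k))⌋₊ → ∞`. LM1 gives `μ`, a flow invariant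
probability measure, with (a): if `∫ W(fl t x) dρ_k ≤ b` for all large `k` and all `0 ≤ t ≤ n_k` then `∫ W dμ ≤ b`. `∫ W(fl t x) dρ_k = ∫ W (fl (t + √log r_k) x) drh`, and `t + √log r_k` is in `[√log r_k, log r_k - √log r_k]`. The last part of the row is (a) read backwards. Projection: for `V` with values in `[0, 1]`, `V ∘ mkM` of class `CD 2`, QW and `|r qn - 1| ≤ η` (NM3)
give `∫ V(pr (fl t x)) drh ≤ ∫ V dν + 5 η` for large `k` and all these `t` (`√log r → ∞`, `e^t ≤ r e^(-√log r) ≤ r/K`), so `∫ V ∘ pr dμ ≤ ∫ V dν`; all continuous `V` by ESM (as in FNC), `ν` has mass `1` (`V = 1`), so equality, and `μ.map (pr Γ) = ν`. (`Eig` gives `EigL`.) -/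
def MU_stmt : Prop := ∀ (Γ : Subgroup SL(2, ℝ)) (F : Set ℍ) (β α : ℝ → ℝ) (r : ℕ → ℝ) (φ : ℕ → ℍ → ℂ) (ν : Measure (MG Γ)), QU.SurfaceGroup Γ → QU.NiceDom Γ F → BB (1 / 4) β → BA (1 / 8) α →
  Tendsto r atTop atTop → (∀ k, Eig Γ (r k) (φ k)) → (∀ k, nn F (φ k) = 1) → IsFiniteMeasure ν →
  (∀ V : MG Γ → ℝ, Continuous V → Tendsto (fun k => ∫ z in F, V (mkM Γ z) * ‖φ k z‖ ^ 2) atTop (𝓝 (∫ x, V x ∂ν))) →
  ∃ μ : Measure (XG Γ), IsProbabilityMeasure μ ∧ (∀ t, μ.map (fl Γ t) = μ) ∧ μ.map (pr Γ) = ν ∧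
    ∀ (Ψ : XG Γ → ℝ) (b : ℝ), Continuous Ψ → b < ∫ x, Ψ x ∂μ → ∃ᶠ k in atTop, ∃ t : ℝ, Real.sqrt (Real.log (r k)) ≤ t ∧ t ≤ Real.log (r k) - Real.sqrt (Real.log (r k)) ∧
      b * qn F (pc β α) (r k) (φ k) < iR F (fun g => Ψ (mkX Γ (g * aM t)) * ‖pf β α (r k) (φ k) g‖ ^ 2)

/-- **Row MS1** (the main estimate: choice of the constants; medium-long; from STB, NM3, INV, AS1, AS3, BXU, SS1, SS2, RS: CV1, GFD, GWB, GBD, GLC). Let `q = mean h - ε`. If `q < 0` or `m < ε` the claim is trivial (the left side is `≤ ε² ≤ ε`), so let `q ≥ 0`, `m ≥ ε`. `w0` from AS3 for `h`, `q`, `η = ε/4`; fix `β0` (`BB w0`), `α0` (`BA w0`) from STB. `θ`, `C2` from SS2 (for `h`, `ε`),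
`a1`, `C1` from SS1, `a2` from BXU, `a = min a2 (a1/2)`, `C3 ≥ 1` from BXU for `a`; `K ≥ 1` from INV. `δ = min (θ/8) (ε/160)²` (so `2δ ≤ ε`, `δ ≤ 1/16`), `n1` with `(4 C1 C2 K C3/δ) e^(-3θn/4) ≤ δ²` for `n ≥ n1`. Let `n ≥ n1`, `A` be given, `T = n`. `Ψ` from BXU (`n`, `a`, `A`). If `A = ∅` then `Ψ = 0` and the hypothesis says `m < 2δ ≤ ε`. Let `A ≠ ∅`, `BΨ = C3 |A| e^n`,
`X = δ r/(2 K BΨ)`, `t1 = log X = log r - log (2 K BΨ/δ)`, `U = e^(-n)/X`, `B = {g | Ψ (g a_t1) ≠ 0}` (open, invariant), `D = Dn h q T` (open, invariant), `b = pf β α r φ`, `c' = pc (st (-T) β0) α0`. For `r ≥ r2` (`r2` depends on everything but `φ`, `m`, `t`):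
(1) NM3 for `(α, β)` and `(α0, st (-T) β0)` with `η = δ`. (2) `X ≥ 1`, and `t ≤ log r - √log r ≤ t1`; INV from `t` to `t1`: the error is `K (BΨ e^(-t) + (t1 + BΨ X)/r) ≤ K BΨ e^(-√log r) + K log r / r + δ/2 ≤ δ`. So `r ∫_B |b|² ≥ r iR F (Ψ(g a_t1) |b|²) ≥ (m - 2δ) r qn - δ ≥ m - 4δ` and `r ∫_(Bᶜ) |b|² ≤ 1 + δ - (m - 4δ) = 1 - m + 5δ`.
(3) `g ∈ B` implies `bq (2a) (2aX) (2aU) ((y a_(-t1))⁻¹ γ g)` for some `y ∈ A`, `γ` (conjugate by `aM t1`): SS1 with `2a ≤ a1` and the finite set of the `y * aM (-t1)`: `r S1 ≤ C1 |A| e^(-n/2) r U (1 + X e^n/r) ≤ 4 C1 K C3 |A|² e^(-n/2)/δ` (`r U = 2 K C3 |A|/δ`, `X e^n / r = δ/(2 K C3 |A|) ≤ 1`); SS2: `r S2 = C2 e^(-θn) e^(n/2)`. So `r² S1 S2 ≤ (4 C1 C2 K C3/δ) e^(2δn - θn) ≤ δ²`.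
(4) AS1 (`η = δ`): `(1 - δ) √(r ∫_D |P'|²) ≤ √(2 δ²) + (1 + δ) √(1 - m + 5δ)`, so `√(r ∫_D |P'|²) ≤ √(1-m) + 8 √δ` and `r ∫_D |P'|² ≤ 1 - m + 80 √δ ≤ 1 - m + ε/2`. (5) AS3: `q (1 - ε/4 - (1 - m + ε/2)) ≤ ∫ h |φ|² + ε/4`. -/
def MS1_stmt : Prop := ∀ (Γ : Subgroup SL(2, ℝ)) (F : Set ℍ) (h : ℍ → ℝ) (β α : ℝ → ℝ), QU.SurfaceGroup Γ → QU.NiceDom Γ F → QU.Inv Γ h → QU.CD 2 h → (∀ z, 0 ≤ h z ∧ h z ≤ 1) →
  BB (1 / 4) β → BA (1 / 8) α → ∀ ε : ℝ, 0 < ε → ε ≤ 1 → ∃ (a δ : ℝ) (n1 : ℕ), 0 < a ∧ 0 < δ ∧ δ ≤ ε ∧ ∀ n : ℕ, n1 ≤ n → ∀ A : Finset SL(2, ℝ), (A.card : ℝ) ≤ Real.exp (δ * n) →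
    ∃ (Ψ : SL(2, ℝ) → ℝ) (r2 : ℝ), InvG Γ Ψ ∧ (∀ g, 0 ≤ Ψ g ∧ Ψ g ≤ 1) ∧
      (∀ g, (∃ y ∈ A, ∃ γ : Γ, bq a a (a * Real.exp (-n)) (y⁻¹ * (γ : SL(2, ℝ)) * g)) → Ψ g = 1) ∧ 1 ≤ r2 ∧
      ∀ (r m t : ℝ) (φ : ℍ → ℂ), r2 ≤ r → EigL Γ (1 / 4 + r ^ 2) φ → nn F φ = 1 → 0 ≤ m → m ≤ 1 → Real.sqrt (Real.log r) ≤ t → t ≤ Real.log r - Real.sqrt (Real.log r) →
        (m - 2 * δ) * qn F (pc β α) r φ < iR F (fun g => Ψ (g * aM t) * ‖pf β α r φ g‖ ^ 2) →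
          ((∫ z in F, h z) / (volume F).toReal - ε) * (m - ε) ≤ (∫ z in F, h z * ‖φ z‖ ^ 2) + ε

/-- **Row CRE** (medium; from MU, EZC, MS1, STB, EN.A_XFL, RS.A_ESM). `β`, `α` from STB, `μ` from MU, `m = ν.real E = μ.real (pr⁻¹ E) ≤ 1`. First let `h = V ∘ mkM` be of class `CD 2`. For `0 < ε ≤ 1`: `a, δ, n1` from MS1, `n ≥ n1` and `A` from EZC (for `a`, `δ`), `Ψ`, `r2` from MS1. `Ψ` descends to a continuous function `Ψ'` on `X` (`Ψ' (mkX g) = Ψ g`; `mkX` is a quotient map), `Ψ' = 1` on the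
set in `CV` (`mkX g = mkX (y h)` means `γ g = y h`), so `∫ Ψ' dμ ≥ m - δ > m - 2δ`. MU gives infinitely many `k` (and `r k ≥ r2` for large `k`), for which `(mean h - ε)(m - ε) ≤ ∫ h |φ_k|² + ε`; `∫ h |φ_k|² → ∫ V dν`, so `(mean h - ε)(m - ε) ≤ ∫ V dν + 2ε`; `ε → 0`. General `V`: ESM gives `CD 2` functions `h'` with values in `[0, 1]` within `ε`, and they are of the form `V' ∘ mkM`. -/
def CRE_stmt : Prop := ∀ (Γ : Subgroup SL(2, ℝ)) (F : Set ℍ) (r : ℕ → ℝ) (φ : ℕ → ℍ → ℂ) (ν : Measure (MG Γ)) (E : Set (MG Γ)), QU.SurfaceGroup Γ → QU.NiceDom Γ F →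
  Tendsto r atTop atTop → (∀ k, Eig Γ (r k) (φ k)) → (∀ k, nn F (φ k) = 1) → IsFiniteMeasure ν →
  (∀ V : MG Γ → ℝ, Continuous V → Tendsto (fun k => ∫ z in F, V (mkM Γ z) * ‖φ k z‖ ^ 2) atTop (𝓝 (∫ x, V x ∂ν))) → MeasurableSet E →
  (∀ α : ℝ, 0 < α → Measure.hausdorffMeasure (1 + α) {z : ℍ | mkM Γ z ∈ E} = 0) →
    ∀ V : MG Γ → ℝ, Continuous V → (∀ x, 0 ≤ V x ∧ V x ≤ 1) → ν.real E * ((∫ z in F, V (mkM Γ z)) / (volume F).toReal) ≤ ∫ x, V x ∂ν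

/-- **Row FNM** (short-medium; from CRE, EN.A_XTM, EN.A_XFL, QU.A_DOM, QU.A_DOB). Let `F₀` be a nice domain; integrals of invariant functions over `F` and `F₀` agree, `volume F = volume F₀`, and the images of the two restrictions under `mkM` agree (`IsFundamentalDomain.measure_set_eq` / QU.A_DOB). Let `lam = (volume F₀)⁻¹ • (volume.restrict F₀).map mkM`, a probability measure. CRE says
`ν.real E ∫ V dlam ≤ ∫ V dν` for continuous `V` with values in `[0, 1]`. For closed `K` choose continuous `V_n ↓ 1_K` (`M` is compact metrizable; `thickenedIndicator`): `ν(E) lam(K) ≤ ν(K)`; inner regularity of `lam` (finite Borel measure on a compact metrizable space) for all Borel sets. -/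
def FNM_stmt : Prop := ∀ (Γ : Subgroup SL(2, ℝ)) (F : Set ℍ) (r : ℕ → ℝ) (φ : ℕ → ℍ → ℂ) (ν : Measure (MG Γ)) (E : Set (MG Γ)), QU.SurfaceGroup Γ →
  IsFundamentalDomain Γ F (volume : Measure ℍ) → Tendsto r atTop atTop → (∀ k, Eig Γ (r k) (φ k)) → (∀ k, ∫ z in F, ‖φ k z‖ ^ 2 = 1) → IsFiniteMeasure ν →
  (∀ V : MG Γ → ℝ, Continuous V → Tendsto (fun k => ∫ z in F, V (mkM Γ z) * ‖φ k z‖ ^ 2) atTop (𝓝 (∫ x, V x ∂ν))) → MeasurableSet E →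
  (∀ α : ℝ, 0 < α → Measure.hausdorffMeasure (1 + α) {z : ℍ | mkM Γ z ∈ E} = 0) →
    ν E • ((volume F)⁻¹ • ((volume : Measure ℍ).restrict F).map (mkM Γ)) ≤ ν

end Pool.Agent.MS
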