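import Pool.Agent.helper62.MS.SpecA
import Pool.Agent.helper62.EN.SpecX

/-!
# MP_07c750, project MS: block G (boxes, sheets and deviations on the group), rows `ms:X`

Rules as in `SpecA`. `EN.XDS_stmt` (no short elements), `EN.XVO_stmt` (volume of thin sets), `EN.XLF_stmt` are proved (`EN.A_XDS`, .. in `Pool.Agent.helper62.EN.All`).
`(aM s)⁻¹ * h * aM s` has the entries `h00, e^(-s) h01, e^s h10, h11`.
-/

open scoped MatrixGroups ContDiff Topology UpperHalfPlane ComplexConjugate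
open UpperHalfPlane MeasureTheory Filter Set

namespace Pool.Agent.MS

open Pool.Agent.RS

/-- the box: the diagonal entries are within `a` of `1`, the upper right entry is at most `b`, the lower left entry at most `c` -/
def bq (a b c : ℝ) (h : SL(2, ℝ)) : Prop := |h.1 0 0 - 1| ≤ a ∧ |h.1 1 1 - 1| ≤ a ∧ |h.1 0 1| ≤ b ∧ |h.1 1 0| ≤ c

/-- **Row BXF** (smooth indicator functions of one box; medium-long; EN.A_XDS, RS: GLC, GBD). `ε` of XDS; `a0` so small that `bq (3a) (3a) (3a) h`, `bq (3a) (3a) (3a) h'` imply `nr ε (h' h⁻¹)` for `a ≤ a0`. Let `κ` be a smooth function with `κ = 1` on `[-1, 1]`, `κ = 0` outside `(-2, 2)`, values in `[0, 1]`, and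
`χ(h) = κ((h00 - 1)/a) κ((h11 - 1)/a) κ(h01/a) κ(e^n h10/a)`. `Ψ(g) = Σ_γ χ(y⁻¹ γ g)` (`finsum`): at most one term is not zero. Locally `Ψ` is `0` or one of the functions `χ(y⁻¹ γ ·)` (for given `g` there is a neighbourhood on which the same `γ` is used: only finitely many `γ` come close to the box, and if `γ* g` is in the closed box of size `2a`
then nearby no other `γ g'` is in the box of size `3a`). The derivatives of `χ` along `nM`: `h nM(x) = [[h00, h01 + x h00], [h10, h11 + x h10]]`: bounded by `C/a`; along `lM`: `h lM(u) = [[h00 + u h01, h01], [h10 + u h11, h11]]`: bounded by `C e^n / a`; along `aM`: `|e^n h10| ≤ 2a` on the support: bounded. -/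
def BXF_stmt : Prop := ∀ Γ : Subgroup SL(2, ℝ), QU.SurfaceGroup Γ → ∃ a0 : ℝ, 0 < a0 ∧ a0 ≤ 1 / 8 ∧ ∀ a : ℝ, 0 < a → a ≤ a0 → ∃ C : ℝ, 0 < C ∧ ∀ (n : ℝ) (y : SL(2, ℝ)), 0 ≤ n →
  ∃ Ψ Ψa Ψn Ψl : SL(2, ℝ) → ℝ, SF Γ Ψ Ψa Ψn Ψl ∧ (∀ g, 0 ≤ Ψ g ∧ Ψ g ≤ 1) ∧ (∀ g, |Ψn g| ≤ C * Real.exp n) ∧ (∀ g, |Ψl g| ≤ C * Real.exp n) ∧
    (∀ g, (∃ γ : Γ, bq a a (a * Real.exp (-n)) (y⁻¹ * (γ : SL(2, ℝ)) * g)) → Ψ g = 1) ∧
    ∀ g, Ψ g ≠ 0 → ∃ γ : Γ, bq (2 * a) (2 * a) (2 * a * Real.exp (-n)) (y⁻¹ * (γ : SL(2, ℝ)) * g)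

/-- **Row BXU** (unions of boxes; short-medium; from BXF). `Ψ = 1 - Π_(y ∈ A) (1 - Ψ_y)`, by induction on the finite set `A`: `1 - (1 - Ψ)(1 - Ψ_y)`, derivative `Ψ' (1 - Ψ_y) + (1 - Ψ) Ψ_y'`. -/
def BXU_stmt : Prop := ∀ Γ : Subgroup SL(2, ℝ), QU.SurfaceGroup Γ → ∃ a0 : ℝ, 0 < a0 ∧ a0 ≤ 1 / 8 ∧ ∀ a : ℝ, 0 < a → a ≤ a0 → ∃ C : ℝ, 0 < C ∧ ∀ (n : ℝ) (A : Finset SL(2, ℝ)), 0 ≤ n →
  ∃ Ψ Ψa Ψn Ψl : SL(2, ℝ) → ℝ, SF Γ Ψ Ψa Ψn Ψl ∧ (∀ g, 0 ≤ Ψ g ∧ Ψ g ≤ 1) ∧ (∀ g, |Ψn g| ≤ C * A.card * Real.exp n) ∧ (∀ g, |Ψl g| ≤ C * A.card * Real.exp n) ∧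
    (∀ g, (∃ y ∈ A, ∃ γ : Γ, bq a a (a * Real.exp (-n)) (y⁻¹ * (γ : SL(2, ℝ)) * g)) → Ψ g = 1) ∧
    ∀ g, Ψ g ≠ 0 → ∃ y ∈ A, ∃ γ : Γ, bq (2 * a) (2 * a) (2 * a * Real.exp (-n)) (y⁻¹ * (γ : SL(2, ℝ)) * g)

/-- **Row CVK** (a cover; medium; pure). Step 1. Let `k = [[p, q], [c, d]]` with entries `≤ R`; the first column has norm `≥ 1/(2R)`. There are finitely many rotations `kM θ_i` (including `θ = 0`, `π`) such that for every `k` some `k' = (kM θ_i)⁻¹ k` (entries `≤ 2R`) has `k'00 ≥ c₁(R) > 0`; if `|c| ≤ ρ₀(R)` one of `±1` does it, and then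
`|k'10| = |c| ≤ ρ`. If `ρ > ρ₀` we may use all `θ_i`, with `|k'10| ≤ 2R`: there `1 + 2RX ≤ C (1 + ρX)`. Step 2. Let `k'00 ≥ c₁`, `|k'10| ≤ ρ'`. `k' = lM v * nM x * aM t`, `v = k'10/k'00`, `e^(t/2) = k'00`, `x = k'01 k'00`. With a grid of step `η/X` for `v` (`|v| ≤ ρ'/c₁`: at most `C(1 + ρ'X)` points) and of step `η` for `x`, `t`
(bounded): `u = lM v_j * nM x_i * aM t_i`, `e = v - v_j`, `u⁻¹ k' = aM(-t_i) nM(-x_i) lM e nM x aM t`, and `nM(-x_i) lM e nM x = [[1 - x_i e, x - x_i - x_i x e], [e, 1 + e x]]`. For small `η = η(R, κ)` this satisfies `bq κ κ (κ/X)`. -/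
def CVK_stmt : Prop := ∀ R κ : ℝ, 1 ≤ R → 0 < κ → κ ≤ 1 → ∃ C : ℝ, 0 < C ∧ ∀ X ρ : ℝ, 1 ≤ X → 0 < ρ → ∃ A : Finset SL(2, ℝ), (A.card : ℝ) ≤ C * (1 + ρ * X) ∧
  ∀ k : SL(2, ℝ), (∀ i j, |k.1 i j| ≤ R) → |k.1 1 0| ≤ ρ → ∃ u ∈ A, bq κ κ (κ / X) (u⁻¹ * k)

/-- **Row CNV** (the sheets of a long thin box; medium-long; from CVK, EN.A_XDS, EN.A_XVO, RS: GLI). The set is covered by the cells `u {p | bq κ κ (κ/X) p}`, `u ∈ A` (CVK). Claim: in one cell all points have the same `γ`. Let `k, k'` be in the cell, `q = y⁻¹ γ h k`, `q' = y⁻¹ γ' h k'` in the box, `p = k⁻¹ k' = (u⁻¹k)⁻¹ (u⁻¹k')`: diagonal entries within `4κ` of `1`,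
`|p01| ≤ 4κ`, `|p10| ≤ 4κ/X`. `y⁻¹ (γ' γ⁻¹) y = q' p⁻¹ q⁻¹`; conjugate by `aM s`, `s = log X`: `(aM s)⁻¹ q aM s` has the entries `q00, q01/X, q10 X, q11`, all within `a` of those of `1` (`|q10| X ≤ a U X ≤ a`), the same for `q'`, and those of `p` are within `4κ`. So for `a, κ ≤ a0` small the element `(y aM s)⁻¹ (γ' γ⁻¹) (y aM s)` is `nr ε`, and XDS gives `γ' = γ`.
Fix one point `k` of the cell: for the others `k⁻¹ k' = q⁻¹ q'` has entries `≤ 2` (cell) and lower left entry `|-q10 q'00 + q00 q'10| ≤ 2 a U (1 + a) ≤ 3 a U`. So the part of the cell is contained in `k {p | entries ≤ 2, |p10| ≤ 3 a U}`, of measure `≤ C a U` (XVO, GLI). Sum over `A`. -/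
def CNV_stmt : Prop := ∀ Γ : Subgroup SL(2, ℝ), QU.SurfaceGroup Γ → ∃ a0 : ℝ, 0 < a0 ∧ a0 ≤ 1 / 8 ∧ ∀ R : ℝ, 1 ≤ R → ∃ C : ℝ, 0 < C ∧
  ∀ (a X U ρ : ℝ) (y h : SL(2, ℝ)), 0 < a → a ≤ a0 → 1 ≤ X → 0 < U → X * U ≤ 1 → 0 < ρ →
    mG {k : SL(2, ℝ) | (∀ i j, |k.1 i j| ≤ R) ∧ |k.1 1 0| ≤ ρ ∧ ∃ γ : Γ, bq a (a * X) (a * U) (y⁻¹ * (γ : SL(2, ℝ)) * (h * k))} ≤ ENNReal.ofReal (C * U * (1 + ρ * X))

/-- **Row DYA** (dyadic decomposition; short; pure). `(1 + lam t)^(-2) ≤ Σ_(j ≥ 0) 4^(1-j) 1_{t ≤ 2^j/lam}` (let `j` be the least with `t ≤ 2^j/lam`; if `j ≥ 1` then `lam t > 2^(j-1)`). `∫⁻ ≤ Σ_j 4^(1-j) (A + B 2^j/lam) ≤ 16 (A + B/lam)`. -/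
def DYA_stmt : Prop := ∀ (Y : Type) [MeasurableSpace Y] (μ : Measure Y) (t : Y → ℝ) (S : Set Y) (A B lam : ℝ), Measurable t → (∀ x, 0 ≤ t x) → MeasurableSet S →
  0 ≤ A → 0 ≤ B → 0 < lam → (∀ ρ : ℝ, 0 < ρ → μ (S ∩ {x | t x ≤ ρ}) ≤ ENNReal.ofReal (A + B * ρ)) →
    ∫⁻ x in S, ENNReal.ofReal (1 / (1 + lam * t x) ^ 2) ∂μ ≤ ENNReal.ofReal (16 * (A + B / lam))

/-- **Row SS1** (Schur's bound over the boxes; medium; from CNV, DYA, OSC, GKF, RS: GLC). `gk ≠ 0` implies entries `≤ 3` (GKF). For each `y ∈ A` the set `S_y = {k | entries ≤ 3, ∃ γ, bq a (aX) (aU) (y⁻¹γ(hk))}` is measurable (`Γ` is countable, QU.A_DOB or discreteness) and satisfies the hypothesis of DYA with `t k = |k10|`, `A = C U`, `B = C U X` (CNV, `R = 3`);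
OSC: `|gk| ≤ C e^(-T/2) (1 + lam |k10|)^(-2)`, `lam = e^(-T) r`. So the integral over `S_y` is `≤ C e^(-T/2) 16 (C U + C U X e^T / r)`. Sum over `y`. -/
def SS1_stmt : Prop := ∀ (Γ : Subgroup SL(2, ℝ)) (β0 α0 β α : ℝ → ℝ), QU.SurfaceGroup Γ → SB (1 / 4) β0 → SB (1 / 4) α0 → SB (1 / 4) β → SB (1 / 4) α →
  ∃ a0 C : ℝ, 0 < a0 ∧ 0 < C ∧ ∀ (a T r X U : ℝ) (A : Finset SL(2, ℝ)) (h : SL(2, ℝ)), 0 < a → a ≤ a0 → 0 ≤ T → 1 ≤ r → 1 ≤ X → 0 < U → X * U ≤ 1 →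
    ∫⁻ k in {k : SL(2, ℝ) | ∃ y ∈ A, ∃ γ : Γ, bq a (a * X) (a * U) (y⁻¹ * (γ : SL(2, ℝ)) * (h * k))},
      ENNReal.ofReal ‖gk r (pc (st (-T) β0) α0) (pc β α) k‖ ∂mG ≤
        ENNReal.ofReal (C * A.card * Real.exp (-(T / 2)) * U * (1 + X * Real.exp T / r))

/-- **Row HDV** (large deviations along stable arcs; medium-long; from RS: QEX, GLC, GMG). QEX for `-h` (mean `-mean h`) and `ε/2`: `θ0`, `C0`. Transfer to the stable direction: with `J = kM (π/2)`: `nM x * J = J * lM (-x)`, `aM (-t) * J = J * aM t`, `J • I = I`, so `(g nM x aM(-t)) • I = (g J lM(-x) aM t) • I`. So for all `g'` and every interval of length 1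
`∫ exp(-θ0 ∫_0^T h((g' nM x aM(-t)) • I) dt) dx ≤ C0 exp(θ0 (-mean + ε/2) T)`. GMG (fourth part) for the indicator function: `k = toSL2R z * kM θ`; the lower row of `k` is `(-sin θ, cos θ)/√y`, the square norm of the upper row is `(x² + y²)/y`: so `1/18 ≤ y ≤ 18`, `|x| ≤ 18` and `|sin θ| ≤ ρ √y ≤ 5ρ`, a set of `θ ∈ (0, 2π]` of measure `≤ 40 ρ`.
For fixed `θ`, `y`: `g k⁻¹ = g kM(-θ) (toSL2R z)⁻¹ = g' nM(-x/y) aM(-log y)`, `g' = g kM(-θ)`, and `∫_0^T h((g' nM x' aM(-log y - t)) • I) dt` differs from the integral without `-log y` by at most `2 |log y| ≤ 6`. So (Chebyshev) the set of the `x'` in an interval of length 1 with `g' nM x' aM(-log y) ∈ Dn h (mean - ε) T` has measure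
`≤ exp(θ0 (6 + (mean - ε) T)) C0 exp(θ0 (-mean + ε/2) T) = C exp(-θ0 ε T/2)`. `x' = -x/y` ranges over a bounded interval. -/
def HDV_stmt : Prop := ∀ (Γ : Subgroup SL(2, ℝ)) (F : Set ℍ) (h : ℍ → ℝ) (ε : ℝ), QU.SurfaceGroup Γ → QU.NiceDom Γ F → QU.Inv Γ h → (∀ z, 0 ≤ h z ∧ h z ≤ 1) → 0 < ε →
  ∃ θ C : ℝ, 0 < θ ∧ 0 < C ∧ ∀ (T ρ : ℝ) (g : SL(2, ℝ)), 0 ≤ T → 0 < ρ →
    mG {k : SL(2, ℝ) | (∀ i j, |k.1 i j| ≤ 3) ∧ |k.1 1 0| ≤ ρ ∧ g * k⁻¹ ∈ Dn h ((∫ z in F, h z) / (volume F).toReal - ε) T} ≤ ENNReal.ofReal (C * Real.exp (-(θ * T)) * ρ)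

/-- **Row SS2** (Schur's bound over the bad set; short-medium; from HDV, DYA, OSC, GKF, RS: GLC, GBD). As SS1: `S = {k | entries ≤ 3, g k⁻¹ ∈ Dn ..}` (open condition and closed condition: measurable), DYA with `A = 0`, `B = C e^(-θT)`, `lam = e^(-T) r`: `≤ C e^(-T/2) 16 C e^(-θT) e^T/r`. -/
def SS2_stmt : Prop := ∀ (Γ : Subgroup SL(2, ℝ)) (F : Set ℍ) (h : ℍ → ℝ) (ε : ℝ) (β0 α0 β α : ℝ → ℝ), QU.SurfaceGroup Γ → QU.NiceDom Γ F → QU.Inv Γ h → (∀ z, 0 ≤ h z ∧ h z ≤ 1) → 0 < ε →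
  SB (1 / 4) β0 → SB (1 / 4) α0 → SB (1 / 4) β → SB (1 / 4) α → ∃ θ C : ℝ, 0 < θ ∧ 0 < C ∧ ∀ (T r : ℝ) (g : SL(2, ℝ)), 0 ≤ T → 1 ≤ r →
    ∫⁻ k in {k : SL(2, ℝ) | g * k⁻¹ ∈ Dn h ((∫ z in F, h z) / (volume F).toReal - ε) T},
      ENNReal.ofReal ‖gk r (pc (st (-T) β0) α0) (pc β α) k‖ ∂mG ≤ ENNReal.ofReal (C * Real.exp (-(θ * T)) * Real.exp (T / 2) / r)

end Pool.Agent.MS
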