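import Pool.Agent.helper62.RS.SpecE
import Pool.Agent.helper62.RS.SpecQ

/-!
# MP_07c750 (quantum unique ergodicity, weight 10), project MS: block A (packets), rows `ms:X`

THEOREM (MS, maximal scarring). Let `M = Γ \ ℍ` be a closed hyperbolic surface, `φ_k` normalised eigenfunctions of the Laplacian with eigenvalues
`1/4 + r_k²`, `r_k → ∞`, and suppose that `|φ_k|² dz → ν` weakly. If `E ⊆ M` is a Borel set of Hausdorff dimension at most `1` (for example the union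
of all closed geodesics) then `ν ≥ ν(E) · (uniform measure)`. In particular `ν(E) ≤ 1/2`.

PROOF (overview). `P_c(g) = ∫ c(z) y^{1/2+ir} φ(g z) dz` is the packet coefficient; here always `r` = the parameter of `φ`. Blocks:
* stretching: `|P_{β,α}(g)|` is asymptotically `|P_{β',α'}(g a_T)|` where `β'` is `β` squeezed by `e^T` (rows EQ1-EQ4; from BK5 and the Gram identity). So the measure `|P_c|² dg`, pushed
  by the flow to times `t → ∞`, `log r - t → ∞`, is the microlocal lift `μ` of `ν` for every fixed packet `c` (row MU).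
* few boxes (block E): the part of `μ` over `E` has entropy zero, so `e^(δn)` Bowen boxes of length `n` cover it.
* localisation: `B` = the set of `g` with `g a_t1` in one of these boxes, `t1 = log r - n - const`. By the invariance up to the time `log r` (row INV) `|P_c|²` has mass `≥ m - δ` on `B`.
  `φ = u + w`, `u` = the part synthesised from `B`. Analyse with packets `c'` which are narrower by the factor `e^n`. `B` consists of few long thin neighbourhoods of stable leaves; the kernel between narrow and wide packets is concentrated where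
  the lower left entry of `h⁻¹ g` is `≤ e^n / r`, and there only `O(1)` sheets of `B` occur (row CNV): so by Schur's test (SCH) `|P_c' u|²` is essentially constant along stable arcs of length `1`, so (QEX) the time averages of every function over `[-n, 0]` are close to its mean on most of it.
* `w` has mass `≤ 1 - m`, so `φ` has mass `≥ m - o(1)` on the set of `g` with good time averages (rows AS1, AS3), and `∫ h dν ≥ m · mean(h)`.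

RULES. Row `ms:XXX`: file `Pool/Agent/<seat>/MS/XXX.lean`, `import` the spec of the row, `set_option autoImplicit false`, namespace `Pool.Agent.MS`, auxiliary lemmas prefixed `XXX_`, theorem `XXX_proof : XXX_stmt`
(rows listed in `from` may be used as hypotheses `(h : YYY_stmt)`). All rows of QU, RS, EN are proved: `import Pool.Agent.helper62.RS.All` gives `Pool.Agent.RS.A_GLC`, `RS.A_BK5`, `RS.A_GR2`, `RS.A_CV1`, `RS.A_FL0`, ...,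
`import Pool.Agent.helper62.EN.All` gives `Pool.Agent.EN.A_XFL`, ...
-/

open scoped MatrixGroups ContDiff Topology UpperHalfPlane ComplexConjugate
open UpperHalfPlane MeasureTheory Filter Set

namespace Pool.Agent.MS

open Pool.Agent.RS

/-- nonnegative bumps of integral `1` -/
def BA (w : ℝ) (α : ℝ → ℝ) : Prop := SB w α ∧ (∀ x, 0 ≤ α x) ∧ ∫ x, α x = 1

/-- bumps with `∫ β² = 1` -/
def BB (w : ℝ) (β : ℝ → ℝ) : Prop := SB w β ∧ ∫ x, β x ^ 2 = 1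

/-- `β` stretched by the factor `e^o` (`o < 0`: squeezed) -/
noncomputable def st (o : ℝ) (β : ℝ → ℝ) (x : ℝ) : ℝ := Real.exp (-(o / 2)) * β (Real.exp (-o) * x)

/-- the packet coefficient -/
noncomputable def pf (β α : ℝ → ℝ) (r : ℝ) (φ : ℍ → ℂ) (g : SL(2, ℝ)) : ℂ := Wf (pk r (pc β α)) φ g

/-- **Row STB** (short; pure). Substitution; bumps: `ContDiffBump` or `PKT_bump` (helper72/RS/PKT.lean), scaled. -/
def STB_stmt : Prop := (∀ β : ℝ → ℝ, st 0 β = β) ∧ (∀ (o o' : ℝ) (β : ℝ → ℝ), st o (st o' β) = st (o + o') β) ∧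
  (∀ (w o : ℝ) (β : ℝ → ℝ), SB w β → SB (Real.exp o * w) (st o β)) ∧
  (∀ (w o : ℝ) (β : ℝ → ℝ), BB w β → BB (Real.exp o * w) (st o β)) ∧
  (∀ (w w' : ℝ) (β : ℝ → ℝ), w ≤ w' → (SB w β → SB w' β) ∧ (BA w β → BA w' β) ∧ (BB w β → BB w' β)) ∧
  ∀ w : ℝ, 0 < w → (∃ α, BA w α) ∧ ∃ β, BB w β

/-- **Row NM3** (frame bounds; medium; from RS: ALH, BK5, CV1, GR2, EF1, NR5; compare the proof of NM2, helper56/RS/NM2.lean). Second part: GR2, `cc (pc β α) = pr β α` (CV1), BK5 with `s = r`, `hF α 0 = ∫ α = 1`. First part: NR5 for `f = pk r (pc β α)`: the maximum `q` is attained at an eigenfunction `v` with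
eigenvalue `lam` (or `q = 0`). If `lam = 1/4 + s²` with `|s - r| ≤ R0`: GR2, BK5, `‖hF α σ‖ ≤ 1` (ALH). Otherwise EF1 with `K / R0² ≤ 1`. -/
def NM3_stmt : Prop := ∀ (Γ : Subgroup SL(2, ℝ)) (F : Set ℍ) (α β : ℝ → ℝ), QU.SurfaceGroup Γ → QU.NiceDom Γ F → BA (1 / 4) α → BB (1 / 4) β →
  ∀ η : ℝ, 0 < η → ∃ r0 : ℝ, 1 ≤ r0 ∧ ∀ r : ℝ, r0 ≤ r →
    (∀ u : ℍ → ℂ, InvC Γ u → r * qn F (pc β α) r u ≤ (1 + η) * nn F u) ∧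
    ∀ φ : ℍ → ℂ, EigL Γ (1 / 4 + r ^ 2) φ → |r * qn F (pc β α) r φ - nn F φ| ≤ η * nn F φ

/-- **Row EQ1** (change of `α`; short; from RS: BK5, GR2, CV1, FL0). `Wf` is linear in the first argument: the difference is `pf β (α1 - α2)`, and `hF (α1 - α2) 0 = 0`: BK5 with `s = r` and GR2. -/
def EQ1_stmt : Prop := ∀ (Γ : Subgroup SL(2, ℝ)) (F : Set ℍ) (β α1 α2 : ℝ → ℝ), QU.SurfaceGroup Γ → QU.NiceDom Γ F → SB (1 / 4) β → SB (1 / 4) α1 →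
  SB (1 / 4) α2 → ∫ x, α1 x = ∫ x, α2 x → ∀ η : ℝ, 0 < η → ∃ r0 : ℝ, 1 ≤ r0 ∧ ∀ (r : ℝ) (φ : ℍ → ℂ), r0 ≤ r → EigL Γ (1 / 4 + r ^ 2) φ →
    r * iR F (fun g => ‖pf β α1 r φ g - pf β α2 r φ g‖ ^ 2) ≤ η * nn F φ

/-- **Row EQ2** (shift; short; from RS: GWB, CV1, FL0, GLC). `Wf f φ (g a_δ) = Wf (f ∘ a_δ⁻¹) φ g` (GWB); `f (a_δ⁻¹ z) = β(e^(-δ) x) α(log y - δ) (e^(-δ) y)^(1/2 + ir)` and `β (e^(-δ) x) = e^(δ/2) st δ β x`, `(e^(-δ) y)^(1/2+ir) = e^(-δ/2 - irδ) y^(1/2+ir)`. -/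
def EQ2_stmt : Prop := ∀ (Γ : Subgroup SL(2, ℝ)) (β α : ℝ → ℝ) (δ r : ℝ) (φ : ℍ → ℂ) (g : SL(2, ℝ)), QU.SurfaceGroup Γ → SB (1 / 4) β → SB (1 / 4) α → InvC Γ φ →
  pf β α r φ (g * aM δ) = Complex.exp (-((r * δ : ℝ) : ℂ) * Complex.I) * pf (st δ β) (fun τ => α (τ - δ)) r φ g

/-- **Row EQ3** (stretching; medium; from STB, EQ1, EQ2, RS: GFD, GWB). Let `δ = T/n ≤ 1/8` and `f_j(g) = ‖pf (st (-(T - jδ)) β) α1 (g a_(T - jδ))‖`. By EQ2 at `g' = g a_(T-(j+1)δ)`: `f_j(g) = ‖pf β_(j+1) (α1(· - δ)) (g')‖`, `β_(j+1) = st (-(T-(j+1)δ)) β`, and `f_(j+1)(g) = ‖pf β_(j+1) α1 (g')‖`.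
By EQ1 (`α1(· - δ)` is `SB (1/4)` with the same integral) and the invariance of `iR F` under right translations of invariant functions (GFD) `√(r iR F (f_j - f_(j+1))²)` is small for large `r`. `n` steps and one more EQ1 (`α1` to `α2`), triangle inequality in `L²` (all functions are continuous and bounded on `dG F`). -/
def EQ3_stmt : Prop := ∀ (Γ : Subgroup SL(2, ℝ)) (F : Set ℍ) (β α1 α2 : ℝ → ℝ) (T : ℝ), QU.SurfaceGroup Γ → QU.NiceDom Γ F → BB (1 / 4) β → BA (1 / 8) α1 →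
  BA (1 / 8) α2 → 0 ≤ T → ∀ η : ℝ, 0 < η → ∃ r0 : ℝ, 1 ≤ r0 ∧ ∀ (r : ℝ) (φ : ℍ → ℂ), r0 ≤ r → EigL Γ (1 / 4 + r ^ 2) φ →
    r * iR F (fun g => (‖pf (st (-T) β) α1 r φ (g * aM T)‖ - ‖pf β α2 r φ g‖) ^ 2) ≤ η * nn F φ

/-- **Row EQ4** (short-medium; from EQ3, NM3, STB, RS: GFD, GWB). By GFD (right translation by `aM T`) the first integral is `r iR F (Ψ g ‖pf (st (-T) β) α1 r φ (g a_T)‖²)`. `|x² - y²| = |x - y| (x + y)`, Cauchy-Schwarz, EQ3 with a small `η`, and `r iR F (x + y)² ≤ 8 nn F φ` by NM3 (for `st (-T) β` and `β`). -/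
def EQ4_stmt : Prop := ∀ (Γ : Subgroup SL(2, ℝ)) (F : Set ℍ) (β α1 α2 : ℝ → ℝ) (T : ℝ), QU.SurfaceGroup Γ → QU.NiceDom Γ F → BB (1 / 4) β → BA (1 / 8) α1 →
  BA (1 / 8) α2 → 0 ≤ T → ∀ η : ℝ, 0 < η → ∃ r0 : ℝ, 1 ≤ r0 ∧ ∀ (r : ℝ) (φ : ℍ → ℂ), r0 ≤ r → EigL Γ (1 / 4 + r ^ 2) φ →
    ∀ Ψ : SL(2, ℝ) → ℝ, Measurable Ψ → (∀ g, |Ψ g| ≤ 1) → (∀ (γ : Γ) g, Ψ ((γ : SL(2, ℝ)) * g) = Ψ g) →
      |r * iR F (fun g => Ψ (g * aM (-T)) * ‖pf (st (-T) β) α1 r φ g‖ ^ 2) - r * iR F (fun g => Ψ g * ‖pf β α2 r φ g‖ ^ 2)| ≤ η * nn F φ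

/-- **Row QM3** (narrow packets; medium; from NM3, STB, RS: INB, QNT, GR2, BK5, CV1; compare helper67/EN/PK2.lean). Assume `η ≤ 1`. QNT for `V`, `η/4` gives `w0`; NM3 with `η/4` gives the frame bound `q = (1 + η/4)/r`: `r iR F (V (g•I) ‖pf‖²) ≤ (1 + η/4)(∫ V |φ|² + (η/4) nn)`. INB for `c = pc β α` (real, `TB (1/4)`) with `s = r`:
the change from `0` to `t` is at most `B √(qn c) √(qn (xm c)) + K e^t / r² nn`; `xm (pc β α) = pc (xβ) α`, `r qn (pc (xβ) α) r φ ≤ (∫ x² β² + η') nn ≤ (w² + η') nn` (GR2, BK5), so for small `w` and large `r`, `e^t ≤ r / K'` the change times `r` is `≤ (η/4) nn`. -/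
def QM3_stmt : Prop := ∀ (Γ : Subgroup SL(2, ℝ)) (F : Set ℍ) (V : ℍ → ℝ), QU.SurfaceGroup Γ → QU.NiceDom Γ F → QU.Inv Γ V → QU.CD 2 V → (∀ z, 0 ≤ V z ∧ V z ≤ 1) →
  ∀ η : ℝ, 0 < η → ∃ w0 : ℝ, 0 < w0 ∧ w0 ≤ 1 / 8 ∧ ∀ (w : ℝ) (β α : ℝ → ℝ), 0 < w → w ≤ w0 → BB w β → BA w α →
    ∃ K r1 : ℝ, 0 < K ∧ 1 ≤ r1 ∧ ∀ (r : ℝ) (φ : ℍ → ℂ), r1 ≤ r → EigL Γ (1 / 4 + r ^ 2) φ → ∀ t : ℝ, 0 ≤ t → Real.exp t ≤ r / K →
      r * iR F (fun g => V ((g * aM t) • I) * ‖pf β α r φ g‖ ^ 2) ≤ (∫ z in F, V z * ‖φ z‖ ^ 2) + η * nn F φ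

/-- **Row QW** (wide packets at late times; short-medium; from QM3, EQ4, STB, RS: GLC). `w0` from QM3 for `V`, `η/2`; `T` with `e^(-T)/4 ≤ w0`, `β'' = st (-T) β` (`BB w0`), `α''` any `BA w0`. EQ4 with `α1 = α''`, `α2 = α` and `Ψ g = V ((g a_t) • I)` (uniform in `t`!):
`r iR F (V ((g a_t) • I) ‖pf β α‖²) ≤ r iR F (V ((g a_(t-T)) • I) ‖pf β'' α''‖²) + (η/2) nn`, and QM3 for `t - T ≥ 0`. `t0 = T`. -/
def QW_stmt : Prop := ∀ (Γ : Subgroup SL(2, ℝ)) (F : Set ℍ) (V : ℍ → ℝ), QU.SurfaceGroup Γ → QU.NiceDom Γ F → QU.Inv Γ V → QU.CD 2 V → (∀ z, 0 ≤ V z ∧ V z ≤ 1) →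
  ∀ β α : ℝ → ℝ, BB (1 / 4) β → BA (1 / 8) α → ∀ η : ℝ, 0 < η → ∃ t0 K r1 : ℝ, 0 ≤ t0 ∧ 0 < K ∧ 1 ≤ r1 ∧ ∀ (r : ℝ) (φ : ℍ → ℂ), r1 ≤ r → EigL Γ (1 / 4 + r ^ 2) φ →
    ∀ t : ℝ, t0 ≤ t → Real.exp t ≤ r / K →
      r * iR F (fun g => V ((g * aM t) • I) * ‖pf β α r φ g‖ ^ 2) ≤ (∫ z in F, V z * ‖φ z‖ ^ 2) + η * nn F φ

/-- a smooth function on `Γ \ SL(2, ℝ)` with its derivatives along the three one-parameter groups -/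
structure SF (Γ : Subgroup SL(2, ℝ)) (Ψ Ψa Ψn Ψl : SL(2, ℝ) → ℝ) : Prop where
  i0 : InvG Γ Ψ
  ia : InvG Γ Ψa
  i1 : InvG Γ Ψn
  il : InvG Γ Ψl
  da : ∀ g, HasDerivAt (fun t => Ψ (g * aM t)) (Ψa g) 0
  dn : ∀ g, HasDerivAt (fun t => Ψ (g * nM t)) (Ψn g) 0
  dl : ∀ g, HasDerivAt (fun t => Ψ (g * lM t)) (Ψl g) 0

/-- **Row INV** (invariance up to the time `log r` for functions of the fine scale; medium; from RS: INA, GR2, BK3, CV1, FL0, GLC, GFD, GBD, GWB; compare helper6/RS/INB.lean). `Ψ_τ(g) = Ψ(g a_τ)` has the derivatives `Ψa`, `e^(-τ) Ψn`, `e^τ Ψl` at `g a_τ`. `d/dτ iR F (Ψ_τ |P|²) = iR F (Ψa (g a_τ) |P|²)`; INA with `B0 = 1`, `Bn = e^(-τ) B`,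
`Bl = e^τ B` and `qn F c' r φ ≤ (K/r) nn F φ` for the seven functions `c'` (GR2, BK3; `s = r`): times `r` it is at most `K (e^(-τ) B + (1 + e^τ B)/r) nn`. Integrate over `[t, t']`. -/
def INV_stmt : Prop := ∀ (Γ : Subgroup SL(2, ℝ)) (F : Set ℍ) (β α : ℝ → ℝ), QU.SurfaceGroup Γ → QU.NiceDom Γ F → BB (1 / 4) β → BA (1 / 4) α →
  ∃ K r1 : ℝ, 1 ≤ K ∧ 1 ≤ r1 ∧ ∀ (r : ℝ) (φ : ℍ → ℂ), r1 ≤ r → EigL Γ (1 / 4 + r ^ 2) φ → ∀ (Ψ Ψa Ψn Ψl : SL(2, ℝ) → ℝ) (B : ℝ), SF Γ Ψ Ψa Ψn Ψl →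
    (∀ g, |Ψ g| ≤ 1) → (∀ g, |Ψn g| ≤ B) → (∀ g, |Ψl g| ≤ B) → ∀ t t' : ℝ, 0 ≤ t → t ≤ t' →
      |r * iR F (fun g => Ψ (g * aM t') * ‖pf β α r φ g‖ ^ 2) - r * iR F (fun g => Ψ (g * aM t) * ‖pf β α r φ g‖ ^ 2)| ≤
        K * (B * Real.exp (-t) + (t' + B * Real.exp t') / r) * nn F φ

/-! ## The kernel between narrow and wide packets -/

/-- **Row OI2** (two integrations by parts; short-medium; pure; compare row OIB). `∫ a e^(iθ) = ∫ (D² a) e^(iθ)` with `D f = -(f/(iθ'))'` (the boundary terms vanish), and `|((a/θ')'/θ')'| = |a''/θ'² - 3 a' θ''/θ'³ - a θ'''/θ'³ + 3 a θ''²/θ'⁴| ≤ 4 M (1+L)²/m²`. -/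
def OI2_stmt : Prop := ∀ (a : ℝ → ℂ) (θ : ℝ → ℝ) (A B m M L : ℝ), A ≤ B → ContDiff ℝ 2 a → ContDiff ℝ 3 θ → a A = 0 → a B = 0 → deriv a A = 0 → deriv a B = 0 →
  0 < m → 0 ≤ L → (∀ x ∈ Icc A B, m ≤ |deriv θ x|) → (∀ x ∈ Icc A B, |iteratedDeriv 2 θ x| ≤ L * m) → (∀ x ∈ Icc A B, |iteratedDeriv 3 θ x| ≤ L * m) →
  (∀ x ∈ Icc A B, ‖a x‖ ≤ M) → (∀ x ∈ Icc A B, ‖deriv a x‖ ≤ M) → (∀ x ∈ Icc A B, ‖iteratedDeriv 2 a x‖ ≤ M) →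
    ‖∫ x in A..B, a x * Complex.exp ((θ x : ℂ) * Complex.I)‖ ≤ 4 * (B - A) * M * (1 + L) ^ 2 / m ^ 2

/-- `|a - c z|²` for the first column `(a, c)` of `k` and `z = x + i e^τ`; `Im (k⁻¹ z) = e^τ / Dk` -/
noncomputable def Dk (k : SL(2, ℝ)) (x τ : ℝ) : ℝ := (k.1 0 0 - k.1 1 0 * x) ^ 2 + k.1 1 0 ^ 2 * Real.exp (2 * τ)

/-- the amplitude -/
noncomputable def amk (c : ℍ → ℂ) (k : SL(2, ℝ)) (x τ : ℝ) : ℂ := c (k⁻¹ • pt x τ) * ((Dk k x τ ^ (-(1 / 2 : ℝ)) : ℝ) : ℂ)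

/-- **Row OV3** (uniform bounds for the amplitude and the phase; medium; compare row OV1, helper55/RS/OV1.lean). The set of `k` with entries `≤ 3` is compact and `Dk k x τ ≥ 1/200` for `|x|, |τ| ≤ 1/4` (if `|c| ≥ 1/8` then `Dk ≥ c² e^(-1/2)`; if `|c| < 1/8` then `|a d| ≥ 5/8`, `|a| ≥ 5/24`, `|a - c x| ≥ 5/24 - 1/32`). `amk` is a smooth function of
(the entries of `k`, `x`, `τ`), so its derivatives up to order 2 are bounded on the compact set. `∂_x log Dk = -2c(a - cx)/Dk`; the `x`-derivatives of `log Dk` of order 1, 2, 3 have a factor `c` (and are rational functions with denominators powers of `Dk`); `∂_τ log Dk = 2c²e^(2τ)/Dk`. -/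
def OV3_stmt : Prop := ∀ c : ℍ → ℂ, TB (1 / 4) c → ∃ M : ℝ, 0 < M ∧ ∀ k : SL(2, ℝ), (∀ i j, |k.1 i j| ≤ 3) →
  (∀ x τ : ℝ, 0 < Dk k x τ) ∧ (∀ τ : ℝ, ContDiff ℝ ∞ (fun x => amk c k x τ) ∧ ContDiff ℝ ∞ (fun x => Real.log (Dk k x τ))) ∧
  (∀ x : ℝ, ContDiff ℝ ∞ (fun τ => amk c k x τ) ∧ ContDiff ℝ ∞ (fun τ => Real.log (Dk k x τ))) ∧
  ∀ x τ : ℝ, |x| ≤ 1 / 4 → |τ| ≤ 1 / 4 → 1 / 200 ≤ Dk k x τ ∧ Dk k x τ ≤ 60 ∧ ‖amk c k x τ‖ ≤ M ∧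
    (∀ j : ℕ, 1 ≤ j → j ≤ 2 → ‖iteratedDeriv j (fun x => amk c k x τ) x‖ ≤ M ∧ ‖iteratedDeriv j (fun τ => amk c k x τ) τ‖ ≤ M) ∧
    (∀ j : ℕ, 1 ≤ j → j ≤ 3 → |iteratedDeriv j (fun x => Real.log (Dk k x τ)) x| ≤ M * |k.1 1 0| ∧ |iteratedDeriv j (fun τ => Real.log (Dk k x τ)) τ| ≤ M) ∧
    deriv (fun x => Real.log (Dk k x τ)) x = -2 * k.1 1 0 * (k.1 0 0 - k.1 1 0 * x) / Dk k x τ ∧
    deriv (fun τ => Real.log (Dk k x τ)) τ = 2 * k.1 1 0 ^ 2 * Real.exp (2 * τ) / Dk k x τ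

/-- the kernel between the packets with profiles `c'` and `c` -/
noncomputable def gk (r : ℝ) (c' c : ℍ → ℂ) (k : SL(2, ℝ)) : ℂ := ∫ z : ℍ, pk r c' z * conj (pk r c (k⁻¹ • z))

/-- **Row GKF** (formula; medium; from RS: CV1, GLC, FL0). If the integrand is not zero at `z` then `z` and `z' = k⁻¹ z` are in the box `|x| ≤ 1/4`, `|log y| ≤ 1/4`; `|c z' + d|² = Im z' / Im z`, so `|c| ≤ e^(1/2)`, `|d| ≤ 2`, and `|a z' + b| = |z| |c z' + d|`, so all entries are `≤ 3`. CV1 (`∫_ℍ f = ∬ e^(-τ) f(pt x τ)`), `Im (k⁻¹ z) = y/Dk`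
(`k⁻¹ = [[d, -b], [-c, a]]`): `e^(-τ) y^(1/2+ir) (y/Dk)^(1/2-ir) = Dk^(-1/2+ir)`. The substitution `x = e^(-T) x'` and `st (-T) β0 (e^(-T) x') = e^(T/2) β0 x'`. -/
def GKF_stmt : Prop := ∀ (β0 α0 β α : ℝ → ℝ) (T r : ℝ) (k : SL(2, ℝ)), SB (1 / 4) β0 → SB (1 / 4) α0 → SB (1 / 4) β → SB (1 / 4) α → 0 ≤ T → 1 ≤ r →
  (gk r (pc (st (-T) β0) α0) (pc β α) k ≠ 0 → ∀ i j, |k.1 i j| ≤ 3) ∧
  gk r (pc (st (-T) β0) α0) (pc β α) k = ((Real.exp (-(T / 2)) : ℝ) : ℂ) * ∫ τ : ℝ, ∫ x : ℝ, ((β0 x * α0 τ : ℝ) : ℂ) * amk (pc β α) k (Real.exp (-T) * x) τ *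
    Complex.exp (((r * Real.log (Dk k (Real.exp (-T) * x) τ) : ℝ) : ℂ) * Complex.I)

/-- **Row OSC** (medium-long; from OI2, OV3, GKF). Assume the kernel is not zero, so the entries are `≤ 3`; let `c = k₁₀`, `a = k₀₀`, `λ = e^(-T) r |c|`. Trivially `|gk| ≤ C e^(-T/2)` (OV3). If `λ ≤ 1` this is enough (`(1+λ)² ≤ 4`). Let `λ > 1`. Case A: `|a - c x| ≥ 1/8` for all `|x| ≤ 1/4`. For fixed `τ` use OI2 in `x` on `[-1/4, 1/4]`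
with the amplitude `β0(x) α0(τ) amk(e^(-T)x, τ)` and the phase `r log Dk(e^(-T)x, τ)`: first derivative `≥ e^(-T) r · 2|c| (1/8)/60 = m`, second and third `≤ e^(-2T) r M |c| ≤ L m` (OV3): `≤ C/λ²`. Case B: `|a - c x₀| < 1/8` for some `|x₀| ≤ 1/4`; then `|a - c x| ≤ 1/8 + |c|/2` on the box. If the amplitude is nonzero somewhere then
`Dk = Im z / Im (k⁻¹ z) ≥ e^(-1/2) ≥ 0.6` there, and `Dk ≤ (1/8 + |c|/2)² + 1.65 c²`, so `|c| ≥ 1/2`. For fixed `x` use OI2 in `τ`: the first derivative is `r · 2c²e^(2τ)/Dk ≥ r c₄`: the bound `C/r² ≤ C'/λ²` (`λ ≤ 3 r`). (`β0`, `α0` and their derivatives vanish at `±1/4`: smooth functions supported in `[-1/4, 1/4]`.) -/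
def OSC_stmt : Prop := ∀ β0 α0 β α : ℝ → ℝ, SB (1 / 4) β0 → SB (1 / 4) α0 → SB (1 / 4) β → SB (1 / 4) α → ∃ C : ℝ, 0 < C ∧ ∀ (T r : ℝ) (k : SL(2, ℝ)), 0 ≤ T → 1 ≤ r →
  ‖gk r (pc (st (-T) β0) α0) (pc β α) k‖ ≤ C * Real.exp (-(T / 2)) / (1 + Real.exp (-T) * r * |k.1 1 0|) ^ 2

/-! ## Synthesis -/

/-- **Row SYB** (the norm of the synthesis; short-medium; from RS: GDU, GWB, GPE). GDU for `f̄` (`Wf f̄ u = conj (Wf f ū)`, so `f̄` has the same frame bound): `w = sy Γ F f̄ v` is in `InvC` and `∫_F |w|² = ∫_F w w̄ = ∫_{dG F} v · Wf f̄ w̄ ≤ (iR F ‖v‖²)^(1/2) (κ ∫_F |w|²)^(1/2)`. -/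
def SYB_stmt : Prop := ∀ (Γ : Subgroup SL(2, ℝ)) (F : Set ℍ) (f : ℍ → ℂ) (κ : ℝ), QU.SurfaceGroup Γ → QU.NiceDom Γ F → Continuous f → HasCompactSupport f → 0 ≤ κ →
  (∀ u : ℍ → ℂ, InvC Γ u → iR F (fun g => ‖Wf f u g‖ ^ 2) ≤ κ * nn F u) → ∀ v : SL(2, ℝ) → ℂ, Measurable v → (∃ m : ℝ, ∀ g, ‖v g‖ ≤ m) →
    InvC Γ (sy Γ F (fun z => conj (f z)) v) ∧ nn F (sy Γ F (fun z => conj (f z)) v) ≤ κ * iR F (fun g => ‖v g‖ ^ 2)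

/-- **Row REP** (the reproducing formula; short-medium; from RS: GDU, GR2, GWB, FL0). For `u` in `InvC`: `∫_F sy(ē)(b) u = ∫_{dG F} b · Wf ē u = iG F (Wf e φ · conj (Wf e ū)) = bk · ∫_F φ u` (GDU, second part, GR2). So the continuous invariant function `d = sy(ē)(b) - bk φ` satisfies `∫_F d u = 0` for all `u` in `InvC`; `u = d̄`, so `d = 0` (continuity; the translates of `F` cover
almost everything). The hypothesis of GDU: any bound `κ` (GYN). -/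
def REP_stmt : Prop := ∀ (Γ : Subgroup SL(2, ℝ)) (F : Set ℍ) (c : ℍ → ℂ) (r s : ℝ) (φ : ℍ → ℂ), QU.SurfaceGroup Γ → QU.NiceDom Γ F → TB (1 / 4) c → EigL Γ (1 / 4 + s ^ 2) φ →
  ∀ z, sy Γ F (fun z => conj (pk r c z)) (Wf (pk r c) φ) z = ((bk (cc c) r s : ℝ) : ℂ) * φ z

/-- **Row SCH** (Schur's test; medium; from RS: GLC, GMG, GLI, GRI, GFD, GPE, GWB). Unfolding: `sy Γ F ē v z = ∫_{SL(2,ℝ)} v(g) conj e(g⁻¹ z) dg` (`v` is `Γ`-invariant), so `Wf e' (sy ..) h = ∫ v(g) [∫ e'(z) conj e(g⁻¹ h z) dz] dg = ∫ v(h k) G(k) dk`, `G(k) = ∫ e'(z) conj e(k⁻¹ z) dz` (`g = h k`). Cauchy-Schwarz: `|..|² ≤ (∫ 1_B(hk) |G(k)| dk) (∫ |v(hk)|² |G(k)| dk)`.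
Integrate over `h ∈ dG F ∩ D`, Tonelli: `≤ S1 ∫ |G(k)| (∫_{dG F} 1_D(h) |v(hk)|² dh) dk`, the inner integral is `∫_{dG F} 1_D(g k⁻¹) |v(g)|² dg` by GFD (second part; the function `g ↦ 1_D(g k⁻¹) |v(g)|²` is invariant); Tonelli again. (Everything is bounded, `G` is continuous with compact support.) -/
def SCH_stmt : Prop := ∀ (Γ : Subgroup SL(2, ℝ)) (F : Set ℍ) (e e' : ℍ → ℂ) (v : SL(2, ℝ) → ℂ) (B D : Set SL(2, ℝ)) (S1 S2 : ℝ), QU.SurfaceGroup Γ → QU.NiceDom Γ F →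
  Continuous e → HasCompactSupport e → Continuous e' → HasCompactSupport e' → Measurable v → (∃ m : ℝ, ∀ g, ‖v g‖ ≤ m) → (∀ (γ : Γ) g, v ((γ : SL(2, ℝ)) * g) = v g) →
  MeasurableSet B → MeasurableSet D → (∀ (γ : Γ) (g : SL(2, ℝ)), (γ : SL(2, ℝ)) * g ∈ D ↔ g ∈ D) → (∀ g, v g ≠ 0 → g ∈ B) → 0 ≤ S1 → 0 ≤ S2 →
  (∀ h : SL(2, ℝ), ∫⁻ k in {k | h * k ∈ B}, ENNReal.ofReal ‖∫ z : ℍ, e' z * conj (e (k⁻¹ • z))‖ ∂mG ≤ ENNReal.ofReal S1) →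
  (∀ g : SL(2, ℝ), ∫⁻ k in {k | g * k⁻¹ ∈ D}, ENNReal.ofReal ‖∫ z : ℍ, e' z * conj (e (k⁻¹ • z))‖ ∂mG ≤ ENNReal.ofReal S2) →
    ∫ h in dG F ∩ D, ‖Wf e' (sy Γ F (fun z => conj (e z)) v) h‖ ^ 2 ∂mG ≤ S1 * S2 * iR F (fun g => ‖v g‖ ^ 2)

/-- **Row AS1** (assembly in `L²`; medium; from SYB, REP, SCH, RS: GR2, GWB, GFD, FL0). `e = pk r c`, `e' = pk r c'`, `b = Wf e φ`, `v1 = 1_B b`, `v2 = 1_(Bᶜ) b` (measurable, bounded, invariant). By REP `bk φ = sy(ē)(v1) + sy(ē)(v2)`, `bk = qn F c r φ` (GR2, `nn F φ = 1`), so in `L²(dG F ∩ D)`: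
`qn ‖Wf e' φ‖ ≤ ‖Wf e' (sy v1)‖ + ‖Wf e' (sy v2)‖ ≤ √(S1 S2 ∫_B |b|²) + √(((1+η)/r)² ∫_(Bᶜ) |b|²)` (SCH; the frame bound for `c'` and SYB with `κ = (1+η)/r`). Multiply by `r √r`. -/
def AS1_stmt : Prop := ∀ (Γ : Subgroup SL(2, ℝ)) (F : Set ℍ) (c c' : ℍ → ℂ) (r s η S1 S2 : ℝ) (φ : ℍ → ℂ) (B D : Set SL(2, ℝ)), QU.SurfaceGroup Γ → QU.NiceDom Γ F →
  TB (1 / 4) c → TB (1 / 4) c' → 0 < r → 0 ≤ η → EigL Γ (1 / 4 + s ^ 2) φ → nn F φ = 1 →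
  (∀ u : ℍ → ℂ, InvC Γ u → r * qn F c r u ≤ (1 + η) * nn F u) → (∀ u : ℍ → ℂ, InvC Γ u → r * qn F c' r u ≤ (1 + η) * nn F u) →
  MeasurableSet B → MeasurableSet D → (∀ (γ : Γ) (g : SL(2, ℝ)), (γ : SL(2, ℝ)) * g ∈ B ↔ g ∈ B) → (∀ (γ : Γ) (g : SL(2, ℝ)), (γ : SL(2, ℝ)) * g ∈ D ↔ g ∈ D) →
  0 ≤ S1 → 0 ≤ S2 →
  (∀ h : SL(2, ℝ), ∫⁻ k in {k | h * k ∈ B}, ENNReal.ofReal ‖gk r c' c k‖ ∂mG ≤ ENNReal.ofReal S1) →
  (∀ g : SL(2, ℝ), ∫⁻ k in {k | g * k⁻¹ ∈ D}, ENNReal.ofReal ‖gk r c' c k‖ ∂mG ≤ ENNReal.ofReal S2) →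
    r * qn F c r φ * Real.sqrt (r * ∫ h in dG F ∩ D, ‖Wf (pk r c') φ h‖ ^ 2 ∂mG) ≤
      Real.sqrt (r ^ 2 * S1 * S2 * (r * ∫ g in dG F ∩ B, ‖Wf (pk r c) φ g‖ ^ 2 ∂mG)) +
        (1 + η) * Real.sqrt (r * ∫ g in dG F \ B, ‖Wf (pk r c) φ g‖ ^ 2 ∂mG)

/-- the set where the average of `h` over the past of length `T` is less than `q` -/
def Dn (h : ℍ → ℝ) (q T : ℝ) : Set SL(2, ℝ) := {y | ∫ t in (0 : ℝ)..T, h ((y * aM (-t)) • I) < q * T}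

/-- **Row AS3** (time averages; medium; from NM3, EQ4, QM3, STB, RS: GLC, GFD, GBD, GWB). `w0` from QM3 for `h`, `η/4`. Let `c' = pc (st (-T) β0) α0`, `p(y) = ‖pf (st (-T) β0) α0 r φ y‖²`. For `0 ≤ t ≤ T` EQ4 (`β = β0`, `α1 = α2 = α0`, `Ψ g = h ((g a_(T-t)) • I)`, uniform in `t`) and QM3 at the time `T - t`:
`r iR F (h ((y a_(-t)) • I) p(y)) ≤ r iR F (h ((y a_(T-t)) • I) ‖pf β0 α0 r φ y‖²) + η/4 ≤ ∫ h |φ|² + η/2`. Average over `t ∈ [0, T]` (Fubini): `r iR F ((T⁻¹ ∫_0^T h((y a_(-t)) • I) dt) p(y)) ≤ ∫ h |φ|² + η/2`; the average is `≥ q` off `Dn h q T` and `≥ 0` on it, and `r iR F p ≥ 1 - η` (NM3). -/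
def AS3_stmt : Prop := ∀ (Γ : Subgroup SL(2, ℝ)) (F : Set ℍ) (h : ℍ → ℝ) (q : ℝ), QU.SurfaceGroup Γ → QU.NiceDom Γ F → QU.Inv Γ h → QU.CD 2 h → (∀ z, 0 ≤ h z ∧ h z ≤ 1) →
  0 ≤ q → q ≤ 1 → ∀ η : ℝ, 0 < η → ∃ w0 : ℝ, 0 < w0 ∧ w0 ≤ 1 / 8 ∧ ∀ (w : ℝ) (β0 α0 : ℝ → ℝ), 0 < w → w ≤ w0 → BB w β0 → BA w α0 → ∀ T : ℝ, 0 < T →
    ∃ r0 : ℝ, 1 ≤ r0 ∧ ∀ (r : ℝ) (φ : ℍ → ℂ), r0 ≤ r → EigL Γ (1 / 4 + r ^ 2) φ → nn F φ = 1 →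
      q * (1 - η - r * ∫ y in dG F ∩ Dn h q T, ‖pf (st (-T) β0) α0 r φ y‖ ^ 2 ∂mG) ≤ (∫ z in F, h z * ‖φ z‖ ^ 2) + η

end Pool.Agent.MS
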